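import Pool.Agent.TH192.MT.Ser

/-!
# Project CX (helper67), module SS (helper65): linear equations with a nonvanishing minor
-/

set_option autoImplicit false

namespace Pool.Agent.D0H65.CX

open MvPolynomial Pool.Agent.W428.MOT Pool.Agent.TH192.MT

section

variable {K : Type} [Field K] {ι : Type}

theorem isPF_intCast (n : ℤ) : IsPF (fun _ : Pt K ι => (n : AlgebraicClosure K)) :=
  ⟨(n : MvPolynomial ι K), fun z => by simp⟩

theorem isPF_det {τ : Type} [Fintype τ] [DecidableEq τ] (B : τ → τ → Pt K ι → AlgebraicClosure K)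
    (h : ∀ i j, IsPF (B i j)) : IsPF (fun z => (Matrix.of fun i j => B i j z).det) := by
  simp only [Matrix.det_apply', Matrix.of_apply]
  exact IsPF.sum _ _ fun s _ => (isPF_intCast _).mul (IsPF.prod _ _ fun i _ => h _ _)

theorem isPF_adj {τ : Type} [Fintype τ] [DecidableEq τ] (B : τ → τ → Pt K ι → AlgebraicClosure K)
    (h : ∀ i j, IsPF (B i j)) (i j : τ) :
    IsPF (fun z => (Matrix.of fun i j => B i j z).adjugate i j) := by
  have h1 : ∀ k l, IsPF (fun z : Pt K ι => if k = j then (if l = i then 1 else 0) else B k l z) := by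
    intro k l
    by_cases hk : k = j
    · by_cases hl : l = i
      · simp only [hk, hl, if_true]
        exact IsPF.one
      · simp only [hk, hl, if_true, if_false]
        exact IsPF.zero
    · simp only [hk, if_false]
      exact h k l
  have h2 := isPF_det (fun k l z => if k = j then (if l = i then 1 else 0) else B k l z) h1
  have h3 : (fun z => (Matrix.of fun i j => B i j z).adjugate i j) =
      fun z => (Matrix.of fun k l => if k = j then (if l = i then 1 else 0) else B k l z).det := by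
    funext z
    rw [Matrix.adjugate_apply]
    congr 1
    ext k l
    rw [Matrix.updateRow_apply, Matrix.of_apply, Matrix.of_apply, Pi.single_apply]
  rw [h3]
  exact h2

end

section

variable {K : Type} [Field K] {T σ τ : Type} [Fintype T] [Fintype σ] [Fintype τ] [DecidableEq τ]

theorem ss_main (κ : τ → σ) (hκ : Function.Injective κ) (Q : Set (Pt K T))
    (A : τ → σ → Pt K T → AlgebraicClosure K) (q : τ → Pt K T → AlgebraicClosure K)
    (hQ : Constr Q) (hA : ∀ i j, IsPF (A i j)) (hq : ∀ i, IsPF (q i))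
    (hdet : ∀ x ∈ Q, (Matrix.of fun i j => A i (κ j) x).det ≠ 0)
    (Ψ : Set (Pt K (T ⊕ τ))) (hΨ : Constr Ψ) :
    Constr {z : Pt K (T ⊕ σ) | (fun t => z (Sum.inl t)) ∈ Q ∧
        (Sum.elim (fun t => z (Sum.inl t)) fun i =>
          ∑ j, A i j (fun t => z (Sum.inl t)) * z (Sum.inr j) + q i fun t => z (Sum.inl t)) ∈ Ψ} ∧
    ∀ {R : Type} [CommRing R] (M : Meas K R),
      M.χ (T ⊕ σ) {z : Pt K (T ⊕ σ) | (fun t => z (Sum.inl t)) ∈ Q ∧
        (Sum.elim (fun t => z (Sum.inl t)) fun i =>
          ∑ j, A i j (fun t => z (Sum.inl t)) * z (Sum.inr j) + q i fun t => z (Sum.inl t)) ∈ Ψ} =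
      M.χ (T ⊕ τ) {x : Pt K (T ⊕ τ) | (fun t => x (Sum.inl t)) ∈ Q ∧ x ∈ Ψ} *
        M.L ^ (Fintype.card σ - Fintype.card τ) := by
  have hφ : ∀ i : T ⊕ τ, IsPF (fun z : Pt K (T ⊕ σ) =>
      (Sum.elim (fun t => z (Sum.inl t)) fun i =>
        ∑ j, A i j (fun t => z (Sum.inl t)) * z (Sum.inr j) + q i fun t => z (Sum.inl t)) i) := by
    rintro (i | i)
    · exact IsPF.coord _
    · exact (IsPF.sum _ _ fun j _ => ((hA i j).comp _ fun t => IsPF.coord _).mul
        (IsPF.coord _)).add ((hq i).comp _ fun t => IsPF.coord _)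
  have hS : Constr {z : Pt K (T ⊕ σ) | (fun t => z (Sum.inl t)) ∈ Q ∧
        (Sum.elim (fun t => z (Sum.inl t)) fun i =>
          ∑ j, A i j (fun t => z (Sum.inl t)) * z (Sum.inr j) + q i fun t => z (Sum.inl t)) ∈ Ψ} :=
    (hQ.preimage _ fun t => IsPF.coord _).and (hΨ.preimage _ hφ)
  refine ⟨hS, ?_⟩
  intro R _ M
  haveI : DecidablePred (· ∈ Set.range κ) := Classical.decPred _
  -- the complement of the columns
  obtain ⟨C, hC⟩ : ∃ C : Set σ, C = (Set.range κ)ᶜ := ⟨_, rfl⟩
  haveI : Fintype C := Fintype.ofFinite C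
  let e : τ ⊕ C ≃ σ := (Equiv.sumCongr (Equiv.ofInjective κ hκ)
    (Equiv.setCongr hC)).trans (Equiv.Set.sumCompl (Set.range κ))
  have he1 : ∀ i, e (Sum.inl i) = κ i := fun i => rfl
  have he2 : ∀ c : C, e (Sum.inr c) = c := fun c => rfl
  have hsum : ∀ F : σ → AlgebraicClosure K, ∑ j, F j = ∑ i, F (κ i) + ∑ c : C, F c := by
    intro F
    rw [← e.sum_comp, Fintype.sum_sum_type]
    rfl
  have hcard : Fintype.card C = Fintype.card σ - Fintype.card τ := by
    have h1 := Fintype.card_congr e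
    rw [Fintype.card_sum] at h1
    omega
  -- the target
  obtain ⟨D, hD⟩ : ∃ D : Set (Pt K (T ⊕ τ)), D = {x | (fun t => x (Sum.inl t)) ∈ Q ∧ x ∈ Ψ} :=
    ⟨_, rfl⟩
  have hDc : Constr D := by
    rw [hD]
    exact (hQ.preimage _ fun t => IsPF.coord _).and hΨ
  rw [← hD, ← hcard, ← chi_univ M, ← M.prod D Set.univ hDc Constr.univ]
  obtain ⟨E, hE⟩ : ∃ E : Set (Pt K ((T ⊕ τ) ⊕ C)), E = {z | (fun i => z (Sum.inl i)) ∈ D ∧
    (fun i => z (Sum.inr i)) ∈ (Set.univ : Set (Pt K C))} := ⟨_, rfl⟩
  rw [← hE]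
  have hEc : Constr E := by
    rw [hE]
    exact (hDc.preimage _ fun t => IsPF.coord _).and (Constr.univ.preimage _ fun t => IsPF.coord _)
  -- the two maps
  let xz : Pt K (T ⊕ σ) → Pt K T := fun z t => z (Sum.inl t)
  let xu : Pt K ((T ⊕ τ) ⊕ C) → Pt K T := fun u t => u (Sum.inl (Sum.inl t))
  let f : Pt K (T ⊕ σ) → Pt K ((T ⊕ τ) ⊕ C) := fun z => Sum.elim
    (Sum.elim (xz z) fun i => ∑ j, A i j (xz z) * z (Sum.inr j) + q i (xz z))
    (fun c => z (Sum.inr c))
  let b : Pt K ((T ⊕ τ) ⊕ C) → τ → AlgebraicClosure K := fun u k =>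
    u (Sum.inl (Sum.inr k)) - q k (xu u) - ∑ c : C, A k c (xu u) * u (Sum.inr c)
  let Am : Pt K T → Matrix τ τ (AlgebraicClosure K) := fun x => Matrix.of fun i j => A i (κ j) x
  let g : Pt K ((T ⊕ τ) ⊕ C) → Pt K (T ⊕ σ) := fun u => Sum.elim (xu u)
    (fun j => Sum.elim (fun i => (∑ k, (Am (xu u)).adjugate i k * b u k) / (Am (xu u)).det)
      (fun c => u (Sum.inr c)) (e.symm j))
  have hg1 : ∀ u i, g u (Sum.inr (κ i)) =
      (∑ k, (Am (xu u)).adjugate i k * b u k) / (Am (xu u)).det := by
    intro u i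
    show Sum.elim _ _ (e.symm (κ i)) = _
    rw [← he1 i, e.symm_apply_apply]
    rfl
  have hg2 : ∀ u (c : C), g u (Sum.inr c) = u (Sum.inr c) := by
    intro u c
    show Sum.elim _ _ (e.symm c) = _
    rw [← he2 c, e.symm_apply_apply]
    rfl
  have hgx : ∀ u, xz (g u) = xu u := fun u => rfl
  have hfx : ∀ z, xu (f z) = xz z := fun z => rfl
  have hAdj : ∀ x i i', ∑ k, (Am x).adjugate i k * A k (κ i') x = if i = i' then (Am x).det else 0 := by
    intro x i i'
    have h1 := congrFun (congrFun (Matrix.adjugate_mul (Am x)) i) i'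
    rw [Matrix.mul_apply, Matrix.smul_apply, Matrix.one_apply, smul_eq_mul, mul_ite, mul_one,
      mul_zero] at h1
    exact h1
  have hAdj' : ∀ x i i', ∑ k, A i (κ k) x * (Am x).adjugate k i' = if i = i' then (Am x).det else 0 := by
    intro x i i'
    have h1 := congrFun (congrFun (Matrix.mul_adjugate (Am x)) i) i'
    rw [Matrix.mul_apply, Matrix.smul_apply, Matrix.one_apply, smul_eq_mul, mul_ite, mul_one,
      mul_zero] at h1
    exact h1
  -- `f (g u) = u`
  have hfg : ∀ u, xu u ∈ Q → f (g u) = u := by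
    intro u hu
    have hd : (Am (xu u)).det ≠ 0 := hdet _ hu
    funext i
    rcases i with (i | i) | i
    · rfl
    · show ∑ j, A i j (xu u) * g u (Sum.inr j) + q i (xu u) = _
      rw [hsum]
      have h1 : ∑ i', A i (κ i') (xu u) * g u (Sum.inr (κ i')) = b u i := by
        have h2 : ∀ i', A i (κ i') (xu u) * g u (Sum.inr (κ i')) =
            (∑ k, (A i (κ i') (xu u) * (Am (xu u)).adjugate i' k) * b u k) / (Am (xu u)).det := by
          intro i'
          rw [hg1, ← mul_div_assoc, Finset.mul_sum]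
          congr 1
          refine Finset.sum_congr rfl fun k _ => ?_
          ring
        rw [Finset.sum_congr rfl fun i' _ => h2 i', ← Finset.sum_div, Finset.sum_comm]
        have h3 : ∀ k, ∑ i', (A i (κ i') (xu u) * (Am (xu u)).adjugate i' k) * b u k =
            if i = k then (Am (xu u)).det * b u k else 0 := by
          intro k
          rw [← Finset.sum_mul, hAdj', ite_mul, zero_mul]
        rw [Finset.sum_congr rfl fun k _ => h3 k, Finset.sum_ite_eq, if_pos (Finset.mem_univ _),
          mul_div_cancel_left₀ _ hd]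
      have h4 : ∑ c : C, A i c (xu u) * g u (Sum.inr c) = ∑ c : C, A i c (xu u) * u (Sum.inr c) :=
        Finset.sum_congr rfl fun c _ => by rw [hg2]
      rw [h1, h4]
      show u (Sum.inl (Sum.inr i)) - q i (xu u) - ∑ c : C, A i c (xu u) * u (Sum.inr c) +
        ∑ c : C, A i c (xu u) * u (Sum.inr c) + q i (xu u) = _
      ring
    · exact hg2 u i
  -- `g (f z) = z`
  have hgf : ∀ z, xz z ∈ Q → g (f z) = z := by
    intro z hz
    have hd : (Am (xz z)).det ≠ 0 := hdet _ hz
    have hb : ∀ k, b (f z) k = ∑ i', A k (κ i') (xz z) * z (Sum.inr (κ i')) := by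
      intro k
      show ∑ j, A k j (xz z) * z (Sum.inr j) + q k (xz z) - q k (xz z) -
        ∑ c : C, A k c (xz z) * z (Sum.inr c) = _
      rw [hsum]
      ring
    funext j
    rcases j with j | j
    · rfl
    · obtain ⟨j', rfl⟩ := e.surjective j
      rcases j' with i | c
      · rw [he1, hg1, hfx, div_eq_iff hd]
        have h1 : ∀ k, (Am (xz z)).adjugate i k * b (f z) k =
            ∑ i', ((Am (xz z)).adjugate i k * A k (κ i') (xz z)) * z (Sum.inr (κ i')) := by
          intro k
          rw [hb, Finset.mul_sum]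
          refine Finset.sum_congr rfl fun i' _ => ?_
          ring
        rw [Finset.sum_congr rfl fun k _ => h1 k, Finset.sum_comm]
        have h2 : ∀ i', ∑ k, ((Am (xz z)).adjugate i k * A k (κ i') (xz z)) * z (Sum.inr (κ i')) =
            if i = i' then (Am (xz z)).det * z (Sum.inr (κ i')) else 0 := by
          intro i'
          rw [← Finset.sum_mul, hAdj, ite_mul, zero_mul]
        rw [Finset.sum_congr rfl fun i' _ => h2 i', Finset.sum_ite_eq, if_pos (Finset.mem_univ _),
          mul_comm]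
      · rw [he2, hg2]
        rfl
  -- membership
  have hzS : ∀ z, z ∈ {z : Pt K (T ⊕ σ) | (fun t => z (Sum.inl t)) ∈ Q ∧
        (Sum.elim (fun t => z (Sum.inl t)) fun i =>
          ∑ j, A i j (fun t => z (Sum.inl t)) * z (Sum.inr j) + q i fun t => z (Sum.inl t)) ∈ Ψ} ↔
      f z ∈ E := by
    intro z
    rw [hE, hD]
    constructor
    · intro h
      exact ⟨h, trivial⟩
    · intro h
      exact h.1
  refine M.iso _ _ hS hEc f g ?_ ?_ ?_ ?_ ?_ ?_
  · apply regularOn_poly
    rintro (i | i)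
    · exact hφ i
    · exact IsPF.coord _
  · intro j
    rcases j with j | j
    · exact (IsPF.coord (K := K) (Sum.inl (Sum.inl j))).isRF _
    · obtain ⟨j', rfl⟩ := e.surjective j
      rcases j' with i | c
      · have hxu : ∀ t, IsPF (fun u : Pt K ((T ⊕ τ) ⊕ C) => xu u t) := fun t => IsPF.coord _
        have hbp : ∀ k, IsPF (fun u => b u k) := fun k =>
          ((IsPF.coord _).sub ((hq k).comp xu hxu)).sub (IsPF.sum _ _ fun c _ =>
            ((hA k c).comp xu hxu).mul (IsPF.coord _))
        have hnum : IsPF (fun u => ∑ k, (Am (xu u)).adjugate i k * b u k) :=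
          IsPF.sum _ _ fun k _ =>
            ((isPF_adj (fun i j => A i (κ j)) (fun i j => hA i (κ j)) i k).comp xu hxu).mul (hbp k)
        have hden : IsPF (fun u => (Am (xu u)).det) :=
          (isPF_det (fun i j => A i (κ j)) (fun i j => hA i (κ j))).comp xu hxu
        refine IsRF.congr ((hnum.isRF E).div (hden.isRF E) ?_) fun u _ => ?_
        · intro u hu
          rw [hE, hD] at hu
          exact hdet _ hu.1.1
        · rw [he1]
          exact hg1 u i
      · refine IsRF.congr ((IsPF.coord (K := K) (Sum.inr c)).isRF E) fun u _ => ?_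
        rw [he2]
        exact hg2 u c
  · intro z hz
    exact (hzS z).1 hz
  · intro u hu
    rw [hzS, hfg u (by rw [hE, hD] at hu; exact hu.1.1)]
    exact hu
  · intro z hz
    exact hgf z hz.1
  · intro u hu
    exact hfg u (by rw [hE, hD] at hu; exact hu.1.1)

end

end Pool.Agent.D0H65.CX
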