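import Pool.Agent.D0H67.CX.Stm
import Pool.Agent.D0H65.CX.SsA

/-!
# Project CX (helper67), modules SS and FIB (helper65)
-/

set_option autoImplicit false
set_option linter.unusedSectionVars false

namespace Pool.Agent.D0H65.CX

open MvPolynomial Pool.Agent.W428.MOT Pool.Agent.TH192.MT Pool.Agent.TH192.DT
  Pool.Agent.D0H67.SUB Pool.Agent.D0H67.PM Pool.Agent.D0H67.SUB.Trn Pool.Agent.D0H67.CX
open Pool.Agent.D0H67.SUB.Lev (jk_lt jk_zero pf_jk)

/-- **SS.** -/
theorem t_SS : S_SS := by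
  intro K _ T σ τ _ _ _ _ κ hκ Q A q hQ hA hq hdet Ψ hΨ
  exact ss_main κ hκ Q A q hQ hA hq hdet Ψ hΨ

section

variable {K : Type} [Field K]

/-- reindexing -/
theorem chi_re {ι κ R : Type} [Fintype ι] [Fintype κ] [CommRing R] (M : Meas K R) (e : ι ≃ κ)
    (S : Set (Pt K κ)) (hS : Constr S) :
    M.χ ι {z : Pt K ι | (fun k => z (e.symm k)) ∈ S} = M.χ κ S := by
  refine M.iso _ _ (hS.preimage _ fun t => IsPF.coord _) hS (fun z k => z (e.symm k))
    (fun w i => w (e i)) (regularOn_poly (fun i => IsPF.coord _) _)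
    (regularOn_poly (fun i => IsPF.coord _) _) ?_ ?_ ?_ ?_
  · intro z hz
    exact hz
  · intro w hw
    show (fun k => w (e (e.symm k))) ∈ S
    have h1 : (fun k => w (e (e.symm k))) = w := by
      funext k
      rw [e.apply_symm_apply]
    rw [h1]
    exact hw
  · intro z _
    funext i
    show z (e.symm (e i)) = z i
    rw [e.symm_apply_apply]
  · intro w _
    funext k
    show w (e (e.symm k)) = w k
    rw [e.apply_symm_apply]

theorem isPA_aeval {σ ι : Type} (γ : σ → Pt K ι → PowerSeries (AlgebraicClosure K))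
    (h : ∀ i, IsPA (γ i)) (f : MvPolynomial σ K) :
    IsPA (fun z => MvPolynomial.aeval (fun i => γ i z) f) := by
  induction f using MvPolynomial.induction_on with
  | C a =>
    simp only [MvPolynomial.algHom_C, PowerSeries.algebraMap_apply]
    exact IsPA.C (IsPF.const a)
  | add p q hp hq =>
    simp only [map_add]
    exact hp.add hq
  | mul_X p i hp =>
    simp only [map_mul, MvPolynomial.aeval_X]
    exact hp.mul (h i)

theorem isPF_coeff {σ : Type} {N : ℕ} (f : MvPolynomial σ K) (j : ℕ) :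
    IsPF (fun z : Pt K (σ × Fin (N + 1)) => PowerSeries.coeff j (aeval (ar z) f)) := by
  refine isPA_aeval (fun i z => ar z i) (fun i => ?_) f j
  intro k
  simp only [ar, PowerSeries.coeff_mk]
  split_ifs with h
  · exact IsPF.coord _
  · exact IsPF.zero

theorem coeff_zero_ar {σ : Type} {N : ℕ} (z : Pt K (σ × Fin (N + 1))) (f : MvPolynomial σ K) :
    PowerSeries.coeff 0 (aeval (ar z) f) = aeval (fun i => z (i, 0)) f := by
  rw [PowerSeries.coeff_zero_eq_constantCoeff]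
  induction f using MvPolynomial.induction_on with
  | C a => simp only [MvPolynomial.algHom_C, PowerSeries.algebraMap_apply,
      PowerSeries.constantCoeff_C]
  | add p q hp hq => rw [map_add, map_add, map_add, hp, hq]
  | mul_X p i hp =>
    rw [map_mul, map_mul, map_mul, hp, aeval_X, aeval_X]
    congr 1

end

section

variable {K : Type} [Field K] {σ τ : Type}

/-- the jet without its last coefficient -/
def tr {N : ℕ} (z : Pt K (σ × Fin (N + 1 + 1))) : Pt K (σ × Fin (N + 1)) :=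
  fun p => z (p.1, p.2.castSucc)

/-- the jet with the last coefficient zero -/
noncomputable def pad {N : ℕ} (z : Pt K (σ × Fin (N + 1))) : Pt K (σ × Fin (N + 1 + 1)) :=
  fun p => Fin.lastCases (motive := fun _ => AlgebraicClosure K) 0 (fun k => z (p.1, k)) p.2

theorem pad_castSucc {N : ℕ} (z : Pt K (σ × Fin (N + 1))) (i : σ) (k : Fin (N + 1)) :
    pad z (i, k.castSucc) = z (i, k) := by
  unfold pad
  exact Fin.lastCases_castSucc _

theorem pad_last {N : ℕ} (z : Pt K (σ × Fin (N + 1))) (i : σ) :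
    pad z (i, Fin.last (N + 1)) = 0 := by
  unfold pad
  exact Fin.lastCases_last

theorem ar_pad {N : ℕ} (z : Pt K (σ × Fin (N + 1))) : ar (pad z) = ar z := by
  funext i
  ext j
  unfold ar
  rw [PowerSeries.coeff_mk, PowerSeries.coeff_mk]
  by_cases h : j < N + 1
  · rw [dif_pos (by omega : j < N + 1 + 1), dif_pos h]
    exact pad_castSucc z i ⟨j, h⟩
  · rw [dif_neg h]
    by_cases h' : j < N + 1 + 1
    · rw [dif_pos h']
      have : (⟨j, h'⟩ : Fin (N + 1 + 1)) = Fin.last (N + 1) := by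
        apply Fin.ext
        show j = N + 1
        omega
      rw [this]
      exact pad_last z i
    · rw [dif_neg h']

theorem tay' [Fintype σ] (hT : S_TAY) (f : MvPolynomial σ K) {N : ℕ}
    (z : Pt K (σ × Fin (N + 1 + 1))) :
    (∀ j < N + 1, PowerSeries.coeff j (aeval (ar z) f) =
      PowerSeries.coeff j (aeval (ar (tr z)) f)) ∧
    PowerSeries.coeff (N + 1) (aeval (ar z) f) = PowerSeries.coeff (N + 1) (aeval (ar (tr z)) f) +
      ∑ i, aeval (fun i => tr z (i, 0)) (pderiv i f) * z (i, Fin.last (N + 1)) := by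
  have h1 : ∀ j < N + 1, jk z j = jk (pad (tr z)) j := by
    intro j hj
    funext i
    rw [jk_lt _ (by omega : j < N + 1 + 1), jk_lt _ (by omega : j < N + 1 + 1)]
    exact (pad_castSucc (tr z) i ⟨j, hj⟩).symm
  have h2 := hT f (N + 1) (N + 1) (by omega) z (pad (tr z)) h1
  rw [ar_pad] at h2
  refine ⟨h2.1, h2.2.trans ?_⟩
  congr 1
  refine Finset.sum_congr rfl fun i _ => ?_
  have h3 : jk z 0 = fun i => tr z (i, 0) := by
    rw [jk_zero]
    rfl
  have h4 : jk z (N + 1) i = z (i, Fin.last (N + 1)) := by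
    rw [jk_lt _ (by omega : N + 1 < N + 1 + 1)]
    rfl
  have h5 : jk (pad (tr z)) (N + 1) i = 0 := by
    rw [jk_lt _ (by omega : N + 1 < N + 1 + 1)]
    exact pad_last (tr z) i
  rw [h3, h4, h5, sub_zero]

/-- the coefficients of `f(z)` of the orders `1, …, N` -/
noncomputable def ps (f : τ → MvPolynomial σ K) {N : ℕ} (z : Pt K (σ × Fin (N + 1))) :
    Pt K (τ × Fin N) :=
  fun p => PowerSeries.coeff ((p.2 : ℕ) + 1) (aeval (ar z) (f p.1))

/-- gluing of the last coefficient -/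
noncomputable def glue {N : ℕ} (w : Pt K (τ × Fin N)) (φ : Pt K τ) : Pt K (τ × Fin (N + 1)) :=
  fun p => Fin.lastCases (motive := fun _ => AlgebraicClosure K) (φ p.1) (fun k => w (p.1, k)) p.2

theorem glue_castSucc {N : ℕ} (w : Pt K (τ × Fin N)) (φ : Pt K τ) (i : τ) (k : Fin N) :
    glue w φ (i, k.castSucc) = w (i, k) := by
  unfold glue
  exact Fin.lastCases_castSucc _

theorem glue_last {N : ℕ} (w : Pt K (τ × Fin N)) (φ : Pt K τ) (i : τ) :
    glue w φ (i, Fin.last N) = φ i := by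
  unfold glue
  exact Fin.lastCases_last

theorem isPF_ps {ι : Type} (f : τ → MvPolynomial σ K) {N : ℕ}
    (ζ : Pt K ι → Pt K (σ × Fin (N + 1))) (hζ : ∀ p, IsPF fun z => ζ z p) (p : τ × Fin N) :
    IsPF (fun z : Pt K ι => ps f (ζ z) p) :=
  (isPF_coeff (f p.1) ((p.2 : ℕ) + 1)).comp ζ hζ

theorem isPF_glue {ι : Type} {N : ℕ} (w : Pt K ι → Pt K (τ × Fin N)) (φ : Pt K ι → Pt K τ)
    (hw : ∀ p, IsPF fun z => w z p) (hφ : ∀ i, IsPF fun z => φ z i) (p : τ × Fin (N + 1)) :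
    IsPF (fun z : Pt K ι => glue (w z) (φ z) p) := by
  obtain ⟨i, k⟩ := p
  induction k using Fin.lastCases with
  | last =>
    simp only [glue_last]
    exact hφ i
  | cast k =>
    simp only [glue_castSucc]
    exact hw (i, k)

theorem ps_step [Fintype σ] (hT : S_TAY) (f : τ → MvPolynomial σ K) {N : ℕ}
    (z : Pt K (σ × Fin (N + 1 + 1))) :
    ps f z = glue (ps f (tr z)) (fun i =>
      ∑ j, aeval (fun i => tr z (i, 0)) (pderiv j (f i)) * z (j, Fin.last (N + 1)) +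
        PowerSeries.coeff (N + 1) (aeval (ar (tr z)) (f i))) := by
  funext p
  obtain ⟨i, k⟩ := p
  have h := tay' hT (f i) z
  induction k using Fin.lastCases with
  | last =>
    rw [glue_last]
    exact h.2.trans (add_comm _ _)
  | cast k =>
    rw [glue_castSucc]
    have hk : (k : ℕ) + 1 < N + 1 := by have := k.2; omega
    exact h.1 _ hk

theorem push_eq (f : τ → MvPolynomial σ K) {N : ℕ} (z : Pt K (σ × Fin (N + 1))) :
    push f z = gl (vf f (fun i => z (i, 0))) (ps f z) := by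
  funext p
  obtain ⟨i, k⟩ := p
  refine Fin.cases ?_ (fun k => ?_) k
  · show PowerSeries.coeff 0 (aeval (ar z) (f i)) = aeval (fun i => z (i, 0)) (f i)
    exact coeff_zero_ar z (f i)
  · rfl

end

section

variable {K : Type} [Field K] {σ τ : Type} [Fintype σ] [Fintype τ]

/-- the jets over `B` with a condition on the image -/
def FS (f : τ → MvPolynomial σ K) (B : Set (Pt K σ)) (N : ℕ) (ρ : Type)
    (Ψ : Set (Pt K (ρ ⊕ (σ ⊕ (τ × Fin N))))) : Set (Pt K (ρ ⊕ (σ × Fin (N + 1)))) :=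
  {z | (fun i => z (Sum.inr (i, 0))) ∈ B ∧ Sum.elim (fun r => z (Sum.inl r))
    (Sum.elim (fun i => z (Sum.inr (i, 0))) (ps f fun p => z (Sum.inr p))) ∈ Ψ}

/-- the base -/
def GS (B : Set (Pt K σ)) (N : ℕ) (ρ : Type)
    (Ψ : Set (Pt K (ρ ⊕ (σ ⊕ (τ × Fin N))))) : Set (Pt K (ρ ⊕ (σ ⊕ (τ × Fin N)))) :=
  {x | (fun i => x (Sum.inr (Sum.inl i))) ∈ B ∧ x ∈ Ψ}

theorem constr_FS (f : τ → MvPolynomial σ K) {B : Set (Pt K σ)} (hB : Constr B) (N : ℕ)
    (ρ : Type) {Ψ : Set (Pt K (ρ ⊕ (σ ⊕ (τ × Fin N))))} (hΨ : Constr Ψ) :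
    Constr (FS f B N ρ Ψ) := by
  refine (hB.preimage _ fun t => IsPF.coord _).and (hΨ.preimage _ ?_)
  rintro (r | i | p)
  · exact IsPF.coord _
  · exact IsPF.coord _
  · exact isPF_ps f _ (fun q => IsPF.coord _) p

theorem constr_GS {B : Set (Pt K σ)} (hB : Constr B) (N : ℕ)
    (ρ : Type) {Ψ : Set (Pt K (ρ ⊕ (σ ⊕ (τ × Fin N))))} (hΨ : Constr Ψ) :
    Constr (GS B N ρ Ψ) :=
  (hB.preimage _ fun t => IsPF.coord _).and hΨ

/-- splitting off the last coefficient -/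
def e1 (ρ σ : Type) (N : ℕ) : ρ ⊕ (σ × Fin (N + 1 + 1)) ≃ (ρ ⊕ (σ × Fin (N + 1))) ⊕ σ where
  toFun := Sum.elim (fun r => Sum.inl (Sum.inl r)) (fun p =>
    Fin.lastCases (motive := fun _ => (ρ ⊕ (σ × Fin (N + 1))) ⊕ σ) (Sum.inr p.1)
      (fun k => Sum.inl (Sum.inr (p.1, k))) p.2)
  invFun := Sum.elim (Sum.elim (fun r => Sum.inl r) (fun p => Sum.inr (p.1, p.2.castSucc)))
    (fun i => Sum.inr (i, Fin.last (N + 1)))
  left_inv := by
    rintro (r | ⟨i, k⟩)
    · rfl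
    · induction k using Fin.lastCases with
      | last => simp
      | cast k => simp
  right_inv := by
    rintro ((r | ⟨i, k⟩) | i)
    · rfl
    · simp
    · simp

/-- moving the last coefficient of `f(z)` to the parameters -/
def e2 (ρ τ X : Type) : (ρ ⊕ X) ⊕ τ ≃ (ρ ⊕ τ) ⊕ X where
  toFun := Sum.elim (Sum.elim (fun r => Sum.inl (Sum.inl r)) (fun p => Sum.inr p))
    (fun i => Sum.inl (Sum.inr i))
  invFun := Sum.elim (Sum.elim (fun r => Sum.inl (Sum.inl r)) (fun i => Sum.inr i))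
    (fun p => Sum.inl (Sum.inr p))
  left_inv := by rintro ((r | p) | i) <;> rfl
  right_inv := by rintro ((r | i) | p) <;> rfl

/-- moving it back -/
def e3 (ρ σ τ : Type) (N : ℕ) :
    (ρ ⊕ τ) ⊕ (σ ⊕ (τ × Fin N)) ≃ ρ ⊕ (σ ⊕ (τ × Fin (N + 1))) where
  toFun := Sum.elim (Sum.elim (fun r => Sum.inl r) (fun i => Sum.inr (Sum.inr (i, Fin.last N))))
    (Sum.elim (fun i => Sum.inr (Sum.inl i)) (fun p => Sum.inr (Sum.inr (p.1, p.2.castSucc))))
  invFun := Sum.elim (fun r => Sum.inl (Sum.inl r)) (Sum.elim (fun i => Sum.inr (Sum.inl i))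
    (fun p => Fin.lastCases (motive := fun _ => (ρ ⊕ τ) ⊕ (σ ⊕ (τ × Fin N)))
      (Sum.inl (Sum.inr p.1)) (fun k => Sum.inr (Sum.inr (p.1, k))) p.2))
  left_inv := by
    rintro ((r | i) | (i | ⟨i, k⟩))
    · rfl
    · simp
    · rfl
    · simp
  right_inv := by
    rintro (r | i | ⟨i, k⟩)
    · rfl
    · rfl
    · induction k using Fin.lastCases with
      | last => simp
      | cast k => simp

theorem e3_glue {ρ : Type} {N : ℕ} (v : Pt K ((ρ ⊕ τ) ⊕ (σ ⊕ (τ × Fin N)))) :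
    (fun k => v ((e3 ρ σ τ N).symm k)) = Sum.elim (fun r => v (Sum.inl (Sum.inl r)))
      (Sum.elim (fun i => v (Sum.inr (Sum.inl i)))
        (glue (fun p => v (Sum.inr (Sum.inr p))) (fun i => v (Sum.inl (Sum.inr i))))) := by
  funext k
  rcases k with r | i | ⟨i, k⟩
  · rfl
  · rfl
  · show v (Fin.lastCases (motive := fun _ => (ρ ⊕ τ) ⊕ (σ ⊕ (τ × Fin N)))
      (Sum.inl (Sum.inr i)) (fun k => Sum.inr (Sum.inr (i, k))) k) =
      glue (fun p => v (Sum.inr (Sum.inr p))) (fun i => v (Sum.inl (Sum.inr i))) (i, k)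
    induction k using Fin.lastCases with
    | last =>
      rw [glue_last, Fin.lastCases_last]
    | cast k =>
      rw [glue_castSucc, Fin.lastCases_castSucc]

theorem fib_gen [DecidableEq τ] (hT : S_TAY) (f : τ → MvPolynomial σ K) (κ : τ → σ)
    (hκ : Function.Injective κ) (B : Set (Pt K σ)) (hB : Constr B)
    (hdet : ∀ x ∈ B, (jac f κ x).det ≠ 0) {R : Type} [CommRing R] (M : Meas K R) :
    ∀ (N : ℕ) (ρ : Type) [Fintype ρ] (Ψ : Set (Pt K (ρ ⊕ (σ ⊕ (τ × Fin N))))), Constr Ψ →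
      M.χ (ρ ⊕ (σ × Fin (N + 1))) (FS f B N ρ Ψ) =
        M.χ (ρ ⊕ (σ ⊕ (τ × Fin N))) (GS B N ρ Ψ) *
          M.L ^ ((Fintype.card σ - Fintype.card τ) * N) := by
  intro N
  induction N with
  | zero =>
    intro ρ _ Ψ hΨ
    rw [Nat.mul_zero, pow_zero, mul_one]
    have h1 := chi_re M ((Equiv.refl ρ).sumCongr ((Equiv.prodUnique σ (Fin 1)).trans
      (Equiv.sumEmpty σ (τ × Fin 0)).symm)) (GS B 0 ρ Ψ) (constr_GS hB 0 ρ hΨ)
    rw [← h1]
    congr 1
    ext z
    have h2 : (fun k => z (((Equiv.refl ρ).sumCongr ((Equiv.prodUnique σ (Fin 1)).trans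
        (Equiv.sumEmpty σ (τ × Fin 0)).symm)).symm k)) =
        Sum.elim (fun r => z (Sum.inl r))
          (Sum.elim (fun i => z (Sum.inr (i, 0))) (ps f fun p => z (Sum.inr p))) := by
      funext k
      rcases k with r | i | p
      · rfl
      · rfl
      · exact p.2.elim0
    rw [Set.mem_ofPred_eq, h2]
    exact Iff.rfl
  | succ N ih =>
    intro ρ _ Ψ hΨ
    -- the sets
    obtain ⟨Q, hQ⟩ : ∃ Q : Set (Pt K (ρ ⊕ (σ × Fin (N + 1)))),
      Q = {x | (fun i => x (Sum.inr (i, 0))) ∈ B} := ⟨_, rfl⟩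
    have hQc : Constr Q := by
      rw [hQ]
      exact hB.preimage _ fun t => IsPF.coord _
    obtain ⟨Ψ₁, hΨ₁⟩ : ∃ Ψ₁ : Set (Pt K ((ρ ⊕ (σ × Fin (N + 1))) ⊕ τ)),
      Ψ₁ = {u | Sum.elim (fun r => u (Sum.inl (Sum.inl r))) (Sum.elim
        (fun i => u (Sum.inl (Sum.inr (i, 0))))
        (glue (ps f fun p => u (Sum.inl (Sum.inr p))) (fun i => u (Sum.inr i)))) ∈ Ψ} := ⟨_, rfl⟩
    have hΨ₁c : Constr Ψ₁ := by
      rw [hΨ₁]
      refine hΨ.preimage _ ?_
      rintro (r | i | p)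
      · exact IsPF.coord _
      · exact IsPF.coord _
      · exact isPF_glue (fun u : Pt K ((ρ ⊕ (σ × Fin (N + 1))) ⊕ τ) =>
          ps f fun p => u (Sum.inl (Sum.inr p))) (fun u i => u (Sum.inr i))
          (fun q => isPF_ps f (fun u : Pt K ((ρ ⊕ (σ × Fin (N + 1))) ⊕ τ) =>
            fun p => u (Sum.inl (Sum.inr p))) (fun q => IsPF.coord _) q)
          (fun i => IsPF.coord _) p
    have hA : ∀ (i : τ) (j : σ), IsPF (fun x : Pt K (ρ ⊕ (σ × Fin (N + 1))) =>
        aeval (fun i => x (Sum.inr (i, 0))) (pderiv j (f i))) := fun i j =>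
      (IsPF.poly (pderiv j (f i))).comp (fun x : Pt K (ρ ⊕ (σ × Fin (N + 1))) =>
        fun i => x (Sum.inr (i, 0))) fun t => IsPF.coord _
    have hq : ∀ i : τ, IsPF (fun x : Pt K (ρ ⊕ (σ × Fin (N + 1))) =>
        PowerSeries.coeff (N + 1) (aeval (ar fun p => x (Sum.inr p)) (f i))) := fun i =>
      (isPF_coeff (f i) (N + 1)).comp (fun x : Pt K (ρ ⊕ (σ × Fin (N + 1))) =>
        fun p => x (Sum.inr p)) fun t => IsPF.coord _
    obtain ⟨hS1c, hS1⟩ := ss_main κ hκ Q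
      (fun i j (x : Pt K (ρ ⊕ (σ × Fin (N + 1)))) =>
        aeval (fun i => x (Sum.inr (i, 0))) (pderiv j (f i)))
      (fun i (x : Pt K (ρ ⊕ (σ × Fin (N + 1)))) =>
        PowerSeries.coeff (N + 1) (aeval (ar fun p => x (Sum.inr p)) (f i)))
      hQc hA hq (by
        intro x hx
        rw [hQ] at hx
        exact hdet (fun i => x (Sum.inr (i, 0))) hx) Ψ₁ hΨ₁c
    -- first step
    have s1 := chi_re M (e1 ρ σ N) _ hS1c
    have s1' : {z : Pt K (ρ ⊕ (σ × Fin (N + 1 + 1))) | (fun k => z ((e1 ρ σ N).symm k)) ∈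
        {z : Pt K ((ρ ⊕ (σ × Fin (N + 1))) ⊕ σ) | (fun t => z (Sum.inl t)) ∈ Q ∧
        (Sum.elim (fun t => z (Sum.inl t)) fun i =>
          ∑ j, aeval (fun i => z (Sum.inl (Sum.inr (i, 0)))) (pderiv j (f i)) * z (Sum.inr j) +
            PowerSeries.coeff (N + 1) (aeval (ar fun p => z (Sum.inl (Sum.inr p))) (f i))) ∈ Ψ₁}} =
        FS f B (N + 1) ρ Ψ := by
      ext z
      rw [hQ, hΨ₁]
      have hz := ps_step hT f (fun p => z (Sum.inr p))
      show ((fun i => z (Sum.inr (i, 0))) ∈ B ∧ Sum.elim (fun r => z (Sum.inl r)) (Sum.elim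
        (fun i => z (Sum.inr (i, 0)))
        (glue (ps f (tr fun p => z (Sum.inr p))) (fun i =>
          ∑ j, aeval (fun i => tr (fun p => z (Sum.inr p)) (i, 0)) (pderiv j (f i)) *
            z (Sum.inr (j, Fin.last (N + 1))) +
            PowerSeries.coeff (N + 1) (aeval (ar (tr fun p => z (Sum.inr p))) (f i))))) ∈ Ψ) ↔ _
      rw [← hz]
      exact Iff.rfl
    rw [← s1', s1, hS1 M]
    -- second step
    obtain ⟨Ψ₂, hΨ₂⟩ : ∃ Ψ₂ : Set (Pt K ((ρ ⊕ τ) ⊕ (σ ⊕ (τ × Fin N)))),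
      Ψ₂ = {v | (fun k => v ((e3 ρ σ τ N).symm k)) ∈ Ψ} := ⟨_, rfl⟩
    have hΨ₂c : Constr Ψ₂ := by
      rw [hΨ₂]
      exact hΨ.preimage _ fun t => IsPF.coord _
    have s2 := chi_re M (e2 ρ τ (σ × Fin (N + 1))) (FS f B N (ρ ⊕ τ) Ψ₂)
      (constr_FS f hB N (ρ ⊕ τ) hΨ₂c)
    have s2' : {z : Pt K ((ρ ⊕ (σ × Fin (N + 1))) ⊕ τ) |
        (fun k => z ((e2 ρ τ (σ × Fin (N + 1))).symm k)) ∈ FS f B N (ρ ⊕ τ) Ψ₂} =
        {x : Pt K ((ρ ⊕ (σ × Fin (N + 1))) ⊕ τ) | (fun t => x (Sum.inl t)) ∈ Q ∧ x ∈ Ψ₁} := by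
      ext z
      rw [hΨ₂, hQ, hΨ₁]
      show ((fun i => z (Sum.inl (Sum.inr (i, 0)))) ∈ B ∧
        (fun k => (Sum.elim (fun r => z ((e2 ρ τ (σ × Fin (N + 1))).symm (Sum.inl r)))
          (Sum.elim (fun i => z (Sum.inl (Sum.inr (i, 0))))
            (ps f fun p => z (Sum.inl (Sum.inr p))))) ((e3 ρ σ τ N).symm k)) ∈ Ψ) ↔ _
      rw [e3_glue]
      exact Iff.rfl
    rw [← s2', s2, ih (ρ ⊕ τ) Ψ₂ hΨ₂c]
    -- third step
    have s3 := chi_re M (e3 ρ σ τ N) (GS B (N + 1) ρ Ψ) (constr_GS hB (N + 1) ρ hΨ)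
    have s3' : {z : Pt K ((ρ ⊕ τ) ⊕ (σ ⊕ (τ × Fin N))) |
        (fun k => z ((e3 ρ σ τ N).symm k)) ∈ GS B (N + 1) ρ Ψ} = GS B N (ρ ⊕ τ) Ψ₂ := by
      ext z
      rw [hΨ₂]
      exact Iff.rfl
    rw [← s3', s3, mul_assoc, ← pow_add, Nat.mul_succ]

end

/-- solving the linear equations -/
theorem solve {F : Type} [Field F] {σ τ : Type} [Fintype σ] [Fintype τ] [DecidableEq τ] (κ : τ → σ)
    (hκ : Function.Injective κ) (A : τ → σ → F)
    (h : (Matrix.of fun i j => A i (κ j)).det ≠ 0) (y : τ → F) :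
    ∃ u : σ → F, ∀ i, ∑ j, A i j * u j = y i := by
  classical
  obtain ⟨v, hv⟩ : ∃ v : τ → F, (Matrix.of fun i j => A i (κ j)).mulVec v = y := by
    refine ⟨((Matrix.of fun i j => A i (κ j))⁻¹).mulVec y, ?_⟩
    rw [Matrix.mulVec_mulVec, Matrix.mul_nonsing_inv _ (isUnit_iff_ne_zero.2 h),
      Matrix.one_mulVec]
  refine ⟨fun j => ∑ i, if κ i = j then v i else 0, fun i => ?_⟩
  rw [← hv]
  show _ = ∑ j, A i (κ j) * v j
  have h1 : ∀ j, A i j * (∑ i', if κ i' = j then v i' else 0) =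
      ∑ i', if κ i' = j then A i j * v i' else 0 := by
    intro j
    rw [Finset.mul_sum]
    refine Finset.sum_congr rfl fun i' _ => ?_
    rw [mul_ite, mul_zero]
  rw [Finset.sum_congr rfl fun j _ => h1 j, Finset.sum_comm]
  refine Finset.sum_congr rfl fun i' _ => ?_
  rw [Finset.sum_ite_eq, if_pos (Finset.mem_univ _)]

/-- **FIB.** -/
theorem t_FIB (hT : S_TAY) (_hS : S_SS) : S_FIB := by
  intro K _ σ τ _ _ _ f κ hκ B hB hdet N
  constructor
  · have key : ∀ N : ℕ, ∀ b ∈ B, ∀ w : Pt K (τ × Fin N), ∃ z : Pt K (σ × Fin (N + 1)),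
        (fun i => z (i, 0)) = b ∧ ps f z = w := by
      intro N
      induction N with
      | zero =>
        intro b _ w
        refine ⟨fun p => b p.1, rfl, ?_⟩
        funext p
        exact p.2.elim0
      | succ N ih =>
        intro b hb w
        obtain ⟨z', hz', hw'⟩ := ih b hb (fun p => w (p.1, p.2.castSucc))
        obtain ⟨u, hu⟩ := solve κ hκ (fun i j => aeval b (pderiv j (f i))) (hdet b hb)
          (fun i => w (i, Fin.last N) - PowerSeries.coeff (N + 1) (aeval (ar z') (f i)))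
        have ht : tr (glue z' u) = z' := by
          funext p
          exact glue_castSucc z' u p.1 p.2
        refine ⟨glue z' u, ?_, ?_⟩
        · rw [← hz']
          funext i
          exact glue_castSucc z' u i 0
        · rw [ps_step hT f (glue z' u), ht, hz', hw']
          funext p
          obtain ⟨i, k⟩ := p
          induction k using Fin.lastCases with
          | last =>
            rw [glue_last]
            have h1 : ∀ j, glue z' u (j, Fin.last (N + 1)) = u j := fun j => glue_last z' u j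
            rw [Finset.sum_congr rfl fun j _ => by rw [h1 j]]
            rw [hu i]
            ring
          | cast k => rw [glue_castSucc]
    intro b hb w
    obtain ⟨z, hz, hw⟩ := key N b hb w
    refine ⟨z, ?_, ?_⟩
    · rw [jk_zero]
      exact hz
    · rw [push_eq, hz, hw]
  · intro Ψ hΨ
    have hset : {z : Pt K (σ × Fin (N + 1)) | jk z 0 ∈ B ∧ push f z ∈ Ψ} =
        {z : Pt K (σ × Fin (N + 1)) | (fun i => z (i, 0)) ∈ B ∧
          gl (vf f (fun i => z (i, 0))) (ps f z) ∈ Ψ} := by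
      ext z
      rw [Set.mem_ofPred_eq, Set.mem_ofPred_eq, push_eq, jk_zero]
    have hpush : ∀ p : τ × Fin (N + 1), IsPF (fun z : Pt K (σ × Fin (N + 1)) => push f z p) :=
      fun p => isPF_coeff (f p.1) p.2
    have hLc : Constr {z : Pt K (σ × Fin (N + 1)) | jk z 0 ∈ B ∧ push f z ∈ Ψ} :=
      (hB.preimage (fun z : Pt K (σ × Fin (N + 1)) => jk z 0) fun t => pf_jk 0 t).and
        (hΨ.preimage _ hpush)
    refine ⟨hLc, ?_⟩
    intro R _ M
    have hgl : ∀ p : τ × Fin (N + 1), IsPF (fun x : Pt K (σ ⊕ (τ × Fin N)) =>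
        gl (vf f fun i => x (Sum.inl i)) (fun p => x (Sum.inr p)) p) := by
      rintro ⟨i, k⟩
      refine Fin.cases ?_ (fun k => ?_) k
      · exact (IsPF.poly (f i)).comp (fun x : Pt K (σ ⊕ (τ × Fin N)) => fun i => x (Sum.inl i))
          fun t => IsPF.coord _
      · exact IsPF.coord _
    have hRc : Constr {x : Pt K (σ ⊕ (τ × Fin N)) | (fun i => x (Sum.inl i)) ∈ B ∧
          gl (vf f fun i => x (Sum.inl i)) (fun p => x (Sum.inr p)) ∈ Ψ} :=
      (hB.preimage _ fun t => IsPF.coord _).and (hΨ.preimage _ hgl)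
    obtain ⟨Ψ', hΨ'⟩ : ∃ Ψ' : Set (Pt K (Empty ⊕ (σ ⊕ (τ × Fin N)))),
      Ψ' = {x | gl (vf f fun i => x (Sum.inr (Sum.inl i))) (fun p => x (Sum.inr (Sum.inr p))) ∈ Ψ} :=
      ⟨_, rfl⟩
    have hΨ'c : Constr Ψ' := by
      rw [hΨ']
      have h1 := (hΨ.preimage _ hgl).preimage
        (fun x : Pt K (Empty ⊕ (σ ⊕ (τ × Fin N))) => fun k => x (Sum.inr k)) fun t => IsPF.coord _
      exact h1
    have hmain := fib_gen hT f κ hκ B hB hdet M N Empty Ψ' hΨ'c
    have hL := chi_re M (Equiv.emptySum Empty (σ × Fin (N + 1))) _ hLc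
    have hR := chi_re M (Equiv.emptySum Empty (σ ⊕ (τ × Fin N))) _ hRc
    have hL' : {z : Pt K (Empty ⊕ (σ × Fin (N + 1))) |
        (fun k => z ((Equiv.emptySum Empty (σ × Fin (N + 1))).symm k)) ∈
        {z : Pt K (σ × Fin (N + 1)) | jk z 0 ∈ B ∧ push f z ∈ Ψ}} = FS f B N Empty Ψ' := by
      rw [hset, hΨ']
      rfl
    have hR' : {z : Pt K (Empty ⊕ (σ ⊕ (τ × Fin N))) |
        (fun k => z ((Equiv.emptySum Empty (σ ⊕ (τ × Fin N))).symm k)) ∈
        {x : Pt K (σ ⊕ (τ × Fin N)) | (fun i => x (Sum.inl i)) ∈ B ∧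
          gl (vf f fun i => x (Sum.inl i)) (fun p => x (Sum.inr p)) ∈ Ψ}} = GS B N Empty Ψ' := by
      rw [hΨ']
      rfl
    rw [← hL, hL', hmain, ← hR, hR']

end Pool.Agent.D0H65.CX
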