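import Pool.Agent.D0H67.CX.Stm2
import Pool.Agent.D0H67.PM.Sing

/-! # The monodromy zeta function at the vertex of a cone of maximal analytic spread -/

set_option autoImplicit false
set_option linter.unusedSectionVars false
set_option linter.unusedVariables false

namespace Pool.Agent.D0H65.CX.Vmon

open MvPolynomial Pool.Agent.W428.MOT Pool.Agent.TH192.MT Pool.Agent.TH192.DT
  Pool.Agent.D0H67.SUB Pool.Agent.D0H67.PM Pool.Agent.D0H67.SUB.Trn Pool.Agent.D0H67.SUB.Lev
  Pool.Agent.D0H67.CX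

section pieces

variable {K : Type} [Field K] [IsAlgClosed K] {σ : Type} [Fintype σ]

/-- the jets with the leading coefficient on the line of `u` -/
def ZZ (u : Pt K σ) (d N : ℕ) : Set (Pt K (σ × Fin (N + 1))) :=
  {z | jk z 0 = 0 ∧ ∃ a : ℕ, (∀ k < a, jk z k ∈ (⊥ : Submodule (AlgebraicClosure K) (Pt K σ))) ∧
    jk z a ∈ conv (⊥ : Submodule (AlgebraicClosure K) (Pt K σ)) u ∧ d * a = N}

theorem constr_conv (u : Pt K σ) (hu : u ≠ 0) :
    Constr (conv (⊥ : Submodule (AlgebraicClosure K) (Pt K σ)) u) := by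
  have hv : u ∉ (⊥ : Submodule (AlgebraicClosure K) (Pt K σ)) := fun h =>
    hu ((Submodule.mem_bot _).1 h)
  rw [Fin.conv_eq _ hv]
  exact (Base.constr_sub _).inter (Base.constr_sub _).compl

theorem constr_ZZ (u : Pt K σ) (hu : u ≠ 0) (d : ℕ) (hd : 0 < d) (N : ℕ) :
    Constr (ZZ u d N) := by
  have h : ZZ u d N = {z | jk z 0 ∈ ({0} : Set (Pt K σ)) ∧
      ((∀ k < N / d, jk z k ∈ ((⊥ : Submodule (AlgebraicClosure K) (Pt K σ)) : Set (Pt K σ))) ∧
        (jk z (N / d) ∈ conv (⊥ : Submodule (AlgebraicClosure K) (Pt K σ)) u ∧ d * (N / d) = N))} := by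
    ext z
    constructor
    · rintro ⟨h1, a, h2, h3, h4⟩
      have ha : N / d = a := by
        rw [← h4, Nat.mul_div_cancel_left _ hd]
      change jk z 0 ∈ _ ∧ _
      rw [ha]
      exact ⟨h1, h2, h3, h4⟩
    · rintro ⟨h1, h2, h3, h4⟩
      exact ⟨h1, N / d, h2, h3, h4⟩
  rw [h]
  refine Constr.and (constr_jk 0 (Fin.constr_pt 0)) (Constr.and (Constr.allLt _ fun k _ =>
    constr_jk k (Base.constr_sub _)) (Constr.and (constr_jk _ (constr_conv u hu)) (Constr.const _)))

/-- the union over a finite set of lines -/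
def ZU (T : Finset (Pt K σ)) (d N : ℕ) : Set (Pt K (σ × Fin (N + 1))) :=
  {z | ∃ u ∈ T, z ∈ ZZ u d N}

theorem ZU_main (d : ℕ) (hd : 0 < d) (N : ℕ) (hN : 0 < N) {R : Type} [CommRing R] (M : Meas K R) (w : R)
    (hw : M.L * w = 1) (T : Finset (Pt K σ)) :
    (∀ u ∈ T, u ≠ 0) → (∀ u ∈ T, ∀ u' ∈ T, u ≠ u' →
      Disjoint (conv (⊥ : Submodule (AlgebraicClosure K) (Pt K σ)) u)
        (conv (⊥ : Submodule (AlgebraicClosure K) (Pt K σ)) u')) →
    Constr (ZU T d N) ∧ ∃ (Q : Polynomial ℤ) (k : ℕ), Q.eval 1 = (if d ∣ N then (T.card : ℤ) else 0) ∧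
      M.χ _ (ZU T d N) * M.L ^ k = (M.L - 1) * Q.eval₂ (Int.castRingHom R) M.L := by
  classical
  induction T using Finset.induction_on with
  | empty =>
    intro _ _
    have h : ZU (∅ : Finset (Pt K σ)) d N = ∅ := by
      ext z
      simp [ZU]
    rw [h]
    refine ⟨Constr.empty, 0, 0, by simp, ?_⟩
    have h1 := M.add (∅ : Set (Pt K (σ × Fin (N + 1)))) ∅ Constr.empty Constr.empty (by simp)
    rw [Set.union_empty] at h1
    have h2 : M.χ _ (∅ : Set (Pt K (σ × Fin (N + 1)))) = 0 := by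
      have h3 : M.χ (σ × Fin (N + 1)) (∅ : Set (Pt K (σ × Fin (N + 1)))) + 0 =
        M.χ (σ × Fin (N + 1)) (∅ : Set (Pt K (σ × Fin (N + 1)))) + M.χ (σ × Fin (N + 1)) ∅ := by
        rw [add_zero]; exact h1
      exact (add_left_cancel h3).symm
    rw [h2, Polynomial.eval₂_zero]
    ring
  | insert u T huT ih =>
    intro h0 hdis
    obtain ⟨hc, Q, k, hQ1, hQ⟩ := ih (fun u' hu' => h0 u' (Finset.mem_insert_of_mem hu'))
      (fun u' hu' u'' hu'' hne => hdis u' (Finset.mem_insert_of_mem hu') u''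
        (Finset.mem_insert_of_mem hu'') hne)
    have hu0 : u ≠ 0 := h0 u (Finset.mem_insert_self _ _)
    have hv : u ∉ (⊥ : Submodule (AlgebraicClosure K) (Pt K σ)) := fun h =>
      hu0 ((Submodule.mem_bot _).1 h)
    obtain ⟨Q', k', hQ1', hQ'⟩ := Sing.main M w hw (⊥ : Submodule (AlgebraicClosure K) (Pt K σ)) 0 u
      (Submodule.zero_mem _) hv d hd N hN
    have hcu := constr_ZZ u hu0 d hd N
    have hun : ZU (insert u T) d N = ZZ u d N ∪ ZU T d N := by
      ext z
      constructor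
      · rintro ⟨u', hu', hz⟩
        rcases Finset.mem_insert.1 hu' with rfl | h
        · exact Or.inl hz
        · exact Or.inr ⟨u', h, hz⟩
      · rintro (hz | ⟨u', h, hz⟩)
        · exact ⟨u, Finset.mem_insert_self _ _, hz⟩
        · exact ⟨u', Finset.mem_insert_of_mem h, hz⟩
    have hdj : Disjoint (ZZ u d N) (ZU T d N) := by
      rw [Set.disjoint_left]
      rintro z ⟨-, a, -, h3, h4⟩ ⟨u', hu', -, a', -, h5, h6⟩
      have haa : a = a' := Nat.eq_of_mul_eq_mul_left hd (h4.trans h6.symm)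
      subst haa
      have hne : u ≠ u' := fun h => huT (h ▸ hu')
      exact Set.disjoint_left.1 (hdis u (Finset.mem_insert_self _ _) u'
        (Finset.mem_insert_of_mem hu') hne) h3 h5
    rw [hun]
    refine ⟨hcu.union hc, Q' * Polynomial.X ^ k + Q * Polynomial.X ^ k', k + k', ?_, ?_⟩
    · rw [Polynomial.eval_add, Polynomial.eval_mul, Polynomial.eval_mul, Polynomial.eval_pow,
        Polynomial.eval_pow, Polynomial.eval_X, one_pow, one_pow, mul_one, mul_one, hQ1, hQ1',
        Finset.card_insert_of_notMem huT]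
      split_ifs
      · push_cast
        ring
      · ring
    · rw [M.add _ _ hcu hc hdj, Polynomial.eval₂_add, Polynomial.eval₂_mul, Polynomial.eval₂_mul,
        Polynomial.eval₂_X_pow, Polynomial.eval₂_X_pow]
      have h1 : M.χ _ (ZZ u d N) * M.L ^ k' = (M.L - 1) * Q'.eval₂ (Int.castRingHom R) M.L := hQ'
      linear_combination M.L ^ k * h1 + M.L ^ k' * hQ

end pieces

theorem aevalA' {σ : Type} (u : σ → ℂ) (p : MvPolynomial σ ℂ) :
    aeval (fun i => algebraMap ℂ (AlgebraicClosure ℂ) (u i)) p =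
      algebraMap ℂ (AlgebraicClosure ℂ) (eval u p) := by
  have h := MvPolynomial.aeval_algebraMap_apply (AlgebraicClosure ℂ) u p
  rw [← MvPolynomial.coe_aeval_eq_eval]
  exact h

theorem hom_smul {K : Type} [Field K] {σ : Type} {d : ℕ} (p : MvPolynomial σ K)
    (hp : p.IsHomogeneous d) (a : AlgebraicClosure K) (u : Pt K σ) :
    aeval (a • u) p = a ^ d * aeval u p := by
  have h1 : (a • u : Pt K σ) = fun i => a * u i := rfl
  rw [h1, aeval_def, aeval_def, eval₂_eq, eval₂_eq, Finset.mul_sum]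
  refine Finset.sum_congr rfl fun m hm => ?_
  have hdm : ∑ i ∈ m.support, m i = d := by
    have h2 := hp (mem_support_iff.1 hm)
    rw [Finsupp.weight_apply] at h2
    simpa [Finsupp.sum] using h2
  have h3 : ∏ i ∈ m.support, (a * u i) ^ m i = a ^ d * ∏ i ∈ m.support, u i ^ m i := by
    rw [← hdm, ← Finset.prod_pow_eq_pow_sum, ← Finset.prod_mul_distrib]
    refine Finset.prod_congr rfl fun i _ => ?_
    rw [mul_pow]
  rw [h3]
  ring

/-- representatives of the lines -/
theorem reps {F V : Type} [Field F] [AddCommGroup V] [Module F V] (Φ : Set V) (hΦ : Φ.Finite)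
    (h0 : ∀ u ∈ Φ, u ≠ 0) : ∃ T : Finset V, (∀ u ∈ T, u ∈ Φ) ∧
      (∀ u ∈ T, ∀ u' ∈ T, u ≠ u' → Disjoint (conv (⊥ : Submodule F V) u) (conv (⊥ : Submodule F V) u')) ∧
      ∀ u ∈ Φ, ∃ u' ∈ T, ∃ a : F, a ≠ 0 ∧ u = a • u' := by
  classical
  induction Φ, hΦ using Set.Finite.induction_on with
  | empty =>
    exact ⟨∅, by simp, by simp, by simp⟩
  | @insert u S huS hS ih =>
    obtain ⟨T, hT1, hT2, hT3⟩ := ih (fun v hv => h0 v (Set.mem_insert_of_mem _ hv))
    by_cases h : ∃ u' ∈ T, ∃ a : F, a ≠ 0 ∧ u = a • u'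
    · refine ⟨T, fun v hv => Set.mem_insert_of_mem _ (hT1 v hv), hT2, fun v hv => ?_⟩
      rcases Set.mem_insert_iff.1 hv with rfl | hv
      · exact h
      · exact hT3 v hv
    · refine ⟨insert u T, fun v hv => ?_, fun v hv v' hv' hne => ?_, fun v hv => ?_⟩
      · rcases Finset.mem_insert.1 hv with rfl | hv
        · exact Set.mem_insert _ _
        · exact Set.mem_insert_of_mem _ (hT1 v hv)
      · have key : ∀ v' ∈ T, Disjoint (conv (⊥ : Submodule F V) u) (conv (⊥ : Submodule F V) v') := by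
          intro v' hv'
          rw [Set.disjoint_left]
          rintro x ⟨a, ha, hx⟩ ⟨b, hb, hy⟩
          rw [Submodule.mem_bot, sub_eq_zero] at hx hy
          apply h
          refine ⟨v', hv', a⁻¹ * b, mul_ne_zero (inv_ne_zero ha) hb, ?_⟩
          rw [mul_smul, ← hy, hx, inv_smul_smul₀ ha]
        rcases Finset.mem_insert.1 hv with e1 | e1
        · rcases Finset.mem_insert.1 hv' with e2 | e2
          · exact absurd (e1.trans e2.symm) hne
          · rw [e1]
            exact key v' e2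
        · rcases Finset.mem_insert.1 hv' with e2 | e2
          · rw [e2]
            exact (key v e1).symm
          · exact hT2 v e1 v' e2 hne
      · rcases Set.mem_insert_iff.1 hv with rfl | hv
        · exact ⟨v, Finset.mem_insert_self _ _, 1, one_ne_zero, (one_smul _ _).symm⟩
        · obtain ⟨u', hu', ha⟩ := hT3 v hv
          exact ⟨u', Finset.mem_insert_of_mem hu', ha⟩

/-- Module VMON. -/
theorem t_VMON : S_GENV → S_VMON := by
  intro hGENV σ J _ _ g ι d hd hg halg
  classical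
  obtain ⟨H, hH0, hH⟩ := hGENV g ι d hd hg halg
  obtain ⟨M, hL, hM⟩ := exists_meas ℂ
  have hLw : M.L * (((Lu ℂ)⁻¹ : (MK ℂ)ˣ) : MK ℂ) = 1 := by rw [hL, Units.mul_inv]
  have hv : ∃ v : σ → ℂ, eval v H ≠ 0 := by
    by_contra hcon
    push Not at hcon
    exact hH0 (MvPolynomial.funext fun v => by rw [hcon v, map_zero])
  obtain ⟨v, hvH⟩ := hv
  set vF : Pt ℂ σ := fun i => algebraMap ℂ (AlgebraicClosure ℂ) (v i) with hvF
  have hinj : Function.Injective (algebraMap ℂ (AlgebraicClosure ℂ)) :=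
    (algebraMap ℂ (AlgebraicClosure ℂ)).injective
  have hvFH : aeval vF H ≠ 0 := by
    rw [hvF, aevalA']
    intro h1
    exact hvH (hinj (by rw [h1, map_zero]))
  obtain ⟨⟨j0, hj0⟩, hfin, hJ⟩ := hH vF hvFH
  -- the points of the fibre are not zero
  have hne : ∀ u : Pt ℂ σ, (∀ j, aeval u (g j) = aeval vF (g j)) → u ≠ 0 := by
    rintro u hu rfl
    apply hj0
    rw [← hu j0]
    have := hom_smul (g j0) (hg j0) 0 (0 : Pt ℂ σ)
    rw [zero_smul, zero_pow hd.ne', zero_mul] at this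
    exact this
  obtain ⟨T, hT1, hT2, hT3⟩ := reps (F := AlgebraicClosure ℂ) _ hfin fun u hu => hne u hu
  have hTne : ∀ u ∈ T, u ≠ 0 := fun u hu => hne u (hT1 u hu)
  have hTn : T.Nonempty := by
    obtain ⟨u', hu', -⟩ := hT3 vF (fun j => rfl)
    exact ⟨u', hu'⟩
  -- the jets
  have hJT : ∀ N : ℕ, JetE g 0 (fun j => aeval vF (g j)) N = ZU T d N := by
    intro N
    rw [hJ N]
    ext z
    constructor
    · rintro ⟨h1, a, h2, ⟨c, hc, h3⟩, h4⟩
      obtain ⟨l, hl⟩ := IsAlgClosed.exists_pow_nat_eq c hd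
      have hl0 : l ≠ 0 := by
        rintro rfl
        rw [zero_pow hd.ne'] at hl
        exact hc hl.symm
      have h5 : (l⁻¹ • jk z a : Pt ℂ σ) ∈ {u : Pt ℂ σ | ∀ j, aeval u (g j) = aeval vF (g j)} := by
        intro j
        rw [hom_smul (g j) (hg j), h3 j, inv_pow, hl, inv_mul_cancel_left₀ hc]
      obtain ⟨u', hu', b, hb, h6⟩ := hT3 _ h5
      refine ⟨u', hu', h1, a, fun k hk => ?_, ⟨l * b, mul_ne_zero hl0 hb, ?_⟩, h4⟩
      · rw [h2 k hk]
        exact Submodule.zero_mem _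
      · rw [mul_smul, ← h6, smul_inv_smul₀ hl0, sub_self]
        exact Submodule.zero_mem _
    · rintro ⟨u', hu', h1, a, h2, ⟨b, hb, h3⟩, h4⟩
      refine ⟨h1, a, fun k hk => (Submodule.mem_bot _).1 (h2 k hk), ⟨b ^ d, pow_ne_zero _ hb, ?_⟩, h4⟩
      intro j
      rw [Submodule.mem_bot, sub_eq_zero] at h3
      rw [h3, hom_smul (g j) (hg j)]
      rw [hT1 u' hu' j]
  have hy : (fun j => aeval vF (g j)) = fun j => algebraMap ℂ (AlgebraicClosure ℂ) (eval v (g j)) := by
    funext j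
    rw [hvF, aevalA']
  have h0F : (fun i => algebraMap ℂ (AlgebraicClosure ℂ) ((0 : σ → ℂ) i)) = (0 : Pt ℂ σ) := by
    funext i
    simp
  refine ⟨fun j => eval v (g j), T.card, hTn.card_pos, ?_, ⟨d, hd, ?_⟩, ?_, ?_⟩
  · intro h1
    apply hj0
    rw [hvF, aevalA', show eval v (g j0) = 0 from congrFun h1 j0, map_zero]
  · rw [h0F, ← hy, hJT]
    obtain ⟨u, hu⟩ := hTn
    have hz : jk (fun q : σ × _root_.Fin (d + 1) => if (q.2 : ℕ) = 1 then u q.1 else 0) 0 = 0 := by
      rw [Lev.jk_zero]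
      funext i
      simp
    refine ⟨fun q => if (q.2 : ℕ) = 1 then u q.1 else 0, u, hu, hz, 1, fun k hk => ?_, ?_,
      Nat.mul_one _⟩
    · have hk0 : k = 0 := Nat.lt_one_iff.1 hk
      subst hk0
      rw [hz]
      exact Submodule.zero_mem _
    · refine ⟨1, one_ne_zero, ?_⟩
      rw [one_smul]
      have h6 : jk (fun q : σ × _root_.Fin (d + 1) => if (q.2 : ℕ) = 1 then u q.1 else 0) 1 =
          u := by
        funext i
        rw [Lev.jk_lt _ (by omega)]
        simp
      rw [h6, sub_self]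
      exact Submodule.zero_mem _
  · rw [Finsupp.single_eq_of_ne hd.ne]
  · intro N hN0
    obtain ⟨-, Q, k, hQ1, hQ⟩ := ZU_main d hd N hN0 M _ hLw T hTne hT2
    rw [h0F, ← hy, hJT]
    refine ⟨Q, k, ?_, ?_⟩
    · have hk : (T.card : ℤ) ≠ 0 := by exact_mod_cast hTn.card_pos.ne'
      rw [hQ1, Finsupp.support_single_ne_zero _ hk, Finset.filter_singleton]
      split_ifs
      · rw [Finset.sum_singleton, Finsupp.single_eq_same]
      · rw [Finset.sum_empty]
    · rw [← hM, ← hL]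
      exact hQ

end Pool.Agent.D0H65.CX.Vmon
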