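import Pool.Agent.D0H67.CX.Stm3
import Pool.Agent.D0H65.CX.Vmon

/-! # The monodromy zeta functions of families of cones at the vertices near the origin -/

set_option autoImplicit false
set_option linter.unusedSectionVars false
set_option linter.unusedVariables false

namespace Pool.Agent.D0H65.CX.Vmon2

open MvPolynomial Pool.Agent.W428.MOT Pool.Agent.TH192.MT Pool.Agent.TH192.DT
  Pool.Agent.D0H67.SUB Pool.Agent.D0H67.PM Pool.Agent.D0H67.SUB.Trn Pool.Agent.D0H67.SUB.Lev
  Pool.Agent.D0H67.CX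

section pieces

variable {K : Type} [Field K] [IsAlgClosed K] {σ : Type} [Fintype σ]
  (L : Submodule (AlgebraicClosure K) (Pt K σ)) (p : Pt K σ)

/-- the jets at `p` with the leading coefficient modulo `L` on the line of `u` -/
def ZZ (u : Pt K σ) (d N : ℕ) : Set (Pt K (σ × Fin (N + 1))) :=
  {z | jk z 0 = p ∧ ∃ a : ℕ, (∀ k < a, jk z k ∈ L) ∧ jk z a ∈ conv L u ∧ d * a = N}

theorem constr_conv (u : Pt K σ) (hu : u ∉ L) : Constr (conv L u) := by
  rw [Fin.conv_eq _ hu]
  exact (Base.constr_sub _).inter (Base.constr_sub _).compl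

theorem constr_ZZ (u : Pt K σ) (hu : u ∉ L) (d : ℕ) (hd : 0 < d) (N : ℕ) :
    Constr (ZZ L p u d N) := by
  have h : ZZ L p u d N = {z | jk z 0 ∈ ({p} : Set (Pt K σ)) ∧
      ((∀ k < N / d, jk z k ∈ (L : Set (Pt K σ))) ∧
        (jk z (N / d) ∈ conv L u ∧ d * (N / d) = N))} := by
    ext z
    constructor
    · rintro ⟨h1, a, h2, h3, h4⟩
      have ha : N / d = a := by
        rw [← h4, Nat.mul_div_cancel_left _ hd]
      change jk z 0 ∈ _ ∧ _
      rw [ha]
      exact ⟨h1, h2, h3, h4⟩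
    · rintro ⟨h1, h2, h3, h4⟩
      exact ⟨h1, N / d, h2, h3, h4⟩
  rw [h]
  refine Constr.and (constr_jk 0 (Fin.constr_pt p)) (Constr.and (Constr.allLt _ fun k _ =>
    constr_jk k (Base.constr_sub _)) (Constr.and (constr_jk _ (constr_conv L u hu)) (Constr.const _)))

/-- the union over a finite set of lines -/
def ZU (T : Finset (Pt K σ)) (d N : ℕ) : Set (Pt K (σ × Fin (N + 1))) :=
  {z | ∃ u ∈ T, z ∈ ZZ L p u d N}

theorem ZU_main (hp : p ∈ L) (d : ℕ) (hd : 0 < d) (N : ℕ) (hN : 0 < N) {R : Type} [CommRing R]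
    (M : Meas K R) (w : R) (hw : M.L * w = 1) (T : Finset (Pt K σ)) :
    (∀ u ∈ T, u ∉ L) → (∀ u ∈ T, ∀ u' ∈ T, u ≠ u' → Disjoint (conv L u) (conv L u')) →
    Constr (ZU L p T d N) ∧ ∃ (Q : Polynomial ℤ) (k : ℕ),
      Q.eval 1 = (if d ∣ N then (T.card : ℤ) else 0) ∧
      M.χ _ (ZU L p T d N) * M.L ^ k = (M.L - 1) * Q.eval₂ (Int.castRingHom R) M.L := by
  classical
  induction T using Finset.induction_on with
  | empty =>
    intro _ _
    have h : ZU L p (∅ : Finset (Pt K σ)) d N = ∅ := by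
      ext z
      simp [ZU]
    rw [h]
    refine ⟨Constr.empty, 0, 0, by simp, ?_⟩
    have h1 := M.add (∅ : Set (Pt K (σ × Fin (N + 1)))) ∅ Constr.empty Constr.empty (by simp)
    rw [Set.union_empty] at h1
    have h2 : M.χ _ (∅ : Set (Pt K (σ × Fin (N + 1)))) = 0 := by
      have h3 : M.χ (σ × Fin (N + 1)) (∅ : Set (Pt K (σ × Fin (N + 1)))) + 0 =
        M.χ (σ × Fin (N + 1)) (∅ : Set (Pt K (σ × Fin (N + 1)))) + M.χ (σ × Fin (N + 1)) ∅ := by
        rw [add_zero]; exact h1
      exact (add_left_cancel h3).symm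
    rw [h2, Polynomial.eval₂_zero]
    ring
  | insert u T huT ih =>
    intro h0 hdis
    obtain ⟨hc, Q, k, hQ1, hQ⟩ := ih (fun u' hu' => h0 u' (Finset.mem_insert_of_mem hu'))
      (fun u' hu' u'' hu'' hne => hdis u' (Finset.mem_insert_of_mem hu') u''
        (Finset.mem_insert_of_mem hu'') hne)
    have hv : u ∉ L := h0 u (Finset.mem_insert_self _ _)
    obtain ⟨Q', k', hQ1', hQ'⟩ := Sing.main M w hw L p u hp hv d hd N hN
    have hcu := constr_ZZ L p u hv d hd N
    have hun : ZU L p (insert u T) d N = ZZ L p u d N ∪ ZU L p T d N := by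
      ext z
      constructor
      · rintro ⟨u', hu', hz⟩
        rcases Finset.mem_insert.1 hu' with rfl | h
        · exact Or.inl hz
        · exact Or.inr ⟨u', h, hz⟩
      · rintro (hz | ⟨u', h, hz⟩)
        · exact ⟨u, Finset.mem_insert_self _ _, hz⟩
        · exact ⟨u', Finset.mem_insert_of_mem h, hz⟩
    have hdj : Disjoint (ZZ L p u d N) (ZU L p T d N) := by
      rw [Set.disjoint_left]
      rintro z ⟨-, a, -, h3, h4⟩ ⟨u', hu', -, a', -, h5, h6⟩
      have haa : a = a' := Nat.eq_of_mul_eq_mul_left hd (h4.trans h6.symm)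
      subst haa
      have hne : u ≠ u' := fun h => huT (h ▸ hu')
      exact Set.disjoint_left.1 (hdis u (Finset.mem_insert_self _ _) u'
        (Finset.mem_insert_of_mem hu') hne) h3 h5
    rw [hun]
    refine ⟨hcu.union hc, Q' * Polynomial.X ^ k + Q * Polynomial.X ^ k', k + k', ?_, ?_⟩
    · rw [Polynomial.eval_add, Polynomial.eval_mul, Polynomial.eval_mul, Polynomial.eval_pow,
        Polynomial.eval_pow, Polynomial.eval_X, one_pow, one_pow, mul_one, mul_one, hQ1, hQ1',
        Finset.card_insert_of_notMem huT]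
      split_ifs
      · push_cast
        ring
      · ring
    · rw [M.add _ _ hcu hc hdj, Polynomial.eval₂_add, Polynomial.eval₂_mul, Polynomial.eval₂_mul,
        Polynomial.eval₂_X_pow, Polynomial.eval₂_X_pow]
      have h1 : M.χ _ (ZZ L p u d N) * M.L ^ k' = (M.L - 1) * Q'.eval₂ (Int.castRingHom R) M.L := hQ'
      linear_combination M.L ^ k * h1 + M.L ^ k' * hQ

end pieces

theorem whom_smul {K : Type} [Field K] {σ : Type} (w : σ → ℕ) {d : ℕ} (p : MvPolynomial σ K)
    (hp : IsWeightedHomogeneous w p d) (a : AlgebraicClosure K) (u : Pt K σ) :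
    aeval (fun i => a ^ w i * u i) p = a ^ d * aeval u p := by
  rw [aeval_def, aeval_def, eval₂_eq, eval₂_eq, Finset.mul_sum]
  refine Finset.sum_congr rfl fun m hm => ?_
  have hdm : ∑ i ∈ m.support, w i * m i = d := by
    have h2 := hp (mem_support_iff.1 hm)
    rw [Finsupp.weight_apply] at h2
    rw [← h2, Finsupp.sum]
    refine Finset.sum_congr rfl fun i _ => ?_
    rw [smul_eq_mul, mul_comm]
  have h3 : ∏ i ∈ m.support, (a ^ w i * u i) ^ m i = a ^ d * ∏ i ∈ m.support, u i ^ m i := by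
    rw [← hdm, ← Finset.prod_pow_eq_pow_sum, ← Finset.prod_mul_distrib]
    refine Finset.prod_congr rfl fun i _ => ?_
    rw [mul_pow, ← pow_mul]
  rw [h3]
  ring

/-- representatives of the lines modulo `L` -/
theorem reps {F V : Type} [Field F] [AddCommGroup V] [Module F V] (L : Submodule F V) (Φ : Set V)
    (hΦ : Φ.Finite) : ∃ T : Finset V, (∀ u ∈ T, u ∈ Φ) ∧
      (∀ u ∈ T, ∀ u' ∈ T, u ≠ u' → Disjoint (conv L u) (conv L u')) ∧
      ∀ u ∈ Φ, ∃ u' ∈ T, ∃ a : F, a ≠ 0 ∧ u - a • u' ∈ L := by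
  classical
  induction Φ, hΦ using Set.Finite.induction_on with
  | empty =>
    exact ⟨∅, by simp, by simp, by simp⟩
  | @insert u S huS hS ih =>
    obtain ⟨T, hT1, hT2, hT3⟩ := ih
    by_cases h : ∃ u' ∈ T, ∃ a : F, a ≠ 0 ∧ u - a • u' ∈ L
    · refine ⟨T, fun v hv => Set.mem_insert_of_mem _ (hT1 v hv), hT2, fun v hv => ?_⟩
      rcases Set.mem_insert_iff.1 hv with rfl | hv
      · exact h
      · exact hT3 v hv
    · refine ⟨insert u T, fun v hv => ?_, fun v hv v' hv' hne => ?_, fun v hv => ?_⟩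
      · rcases Finset.mem_insert.1 hv with rfl | hv
        · exact Set.mem_insert _ _
        · exact Set.mem_insert_of_mem _ (hT1 v hv)
      · have key : ∀ v' ∈ T, Disjoint (conv L u) (conv L v') := by
          intro v' hv'
          rw [Set.disjoint_left]
          rintro x ⟨a, ha, hx⟩ ⟨b, hb, hy⟩
          apply h
          refine ⟨v', hv', a⁻¹ * b, mul_ne_zero (inv_ne_zero ha) hb, ?_⟩
          have h1 : a • u - b • v' ∈ L := by
            have h2 := L.sub_mem hy hx
            have h3 : x - b • v' - (x - a • u) = a • u - b • v' := by abel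
            rwa [h3] at h2
          have h4 := L.smul_mem a⁻¹ h1
          rw [smul_sub, inv_smul_smul₀ ha, smul_smul] at h4
          exact h4
        rcases Finset.mem_insert.1 hv with e1 | e1
        · rcases Finset.mem_insert.1 hv' with e2 | e2
          · exact absurd (e1.trans e2.symm) hne
          · rw [e1]
            exact key v' e2
        · rcases Finset.mem_insert.1 hv' with e2 | e2
          · rw [e2]
            exact (key v e1).symm
          · exact hT2 v e1 v' e2 hne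
      · rcases Set.mem_insert_iff.1 hv with rfl | hv
        · refine ⟨v, Finset.mem_insert_self _ _, 1, one_ne_zero, ?_⟩
          rw [one_smul, sub_self]
          exact L.zero_mem
        · obtain ⟨u', hu', ha⟩ := hT3 v hv
          exact ⟨u', Finset.mem_insert_of_mem hu', ha⟩

/-- the coordinate subspace of the variables of weight zero -/
def L0 {σ : Type} (w : σ → ℕ) : Submodule (AlgebraicClosure ℂ) (Pt ℂ σ) where
  carrier := {x | ∀ i, w i = 1 → x i = 0}
  zero_mem' := fun i _ => rfl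
  add_mem' := fun {a b} ha hb i hi => by
    change a i + b i = 0
    rw [ha i hi, hb i hi, add_zero]
  smul_mem' := fun r x hx i hi => by
    change r * x i = 0
    rw [hx i hi, mul_zero]

theorem mem_L0 {σ : Type} (w : σ → ℕ) (x : Pt ℂ σ) : x ∈ L0 w ↔ ∀ i, w i = 1 → x i = 0 := Iff.rfl

theorem small_ne {σ : Type} [Fintype σ] (H : MvPolynomial σ ℂ) (hH : H ≠ 0) (ε : ℝ) (hε : 0 < ε) :
    ∃ v : σ → ℂ, (∀ i, ‖v i‖ < ε) ∧ eval v H ≠ 0 := by
  by_contra hcon
  push Not at hcon
  apply hH
  refine MvPolynomial.funext_set (fun _ : σ => Metric.ball (0 : ℂ) ε) (fun i => ?_) fun v hv => ?_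
  · have h1 : (Metric.ball (0 : ℂ) ε) ∈ nhds (0 : ℂ) := Metric.ball_mem_nhds _ hε
    exact infinite_of_mem_nhds 0 h1
  · rw [map_zero]
    refine hcon v fun i => ?_
    have := hv i (Set.mem_univ i)
    rwa [mem_ball_zero_iff] at this

/-- Module VMON2. -/
theorem t_VMON2 : S_GENV2 → S_VMON2 := by
  intro hGENV σ J _ g ι w d hw hw1 hd hg halg ε hε
  classical
  obtain ⟨H, hH0, hH⟩ := hGENV g ι w d hw hw1 hd hg halg
  obtain ⟨M, hL, hM⟩ := exists_meas ℂ
  have hLw : M.L * (((Lu ℂ)⁻¹ : (MK ℂ)ˣ) : MK ℂ) = 1 := by rw [hL, Units.mul_inv]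
  obtain ⟨v, hvε, hvH⟩ := small_ne H hH0 ε hε
  have hw01 : ∀ i, w i ≠ 1 → w i = 0 := fun i hi => by have := hw i; omega
  set vF : Pt ℂ σ := fun i => algebraMap ℂ (AlgebraicClosure ℂ) (v i) with hvF
  set pF : Pt ℂ σ := fun i => if w i = 1 then 0 else vF i with hpF
  have hpL : pF ∈ L0 w := fun i hi => by
    change (if w i = 1 then (0 : AlgebraicClosure ℂ) else vF i) = 0
    rw [if_pos hi]
  have hinj : Function.Injective (algebraMap ℂ (AlgebraicClosure ℂ)) :=
    (algebraMap ℂ (AlgebraicClosure ℂ)).injective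
  have hvFH : aeval vF H ≠ 0 := by
    rw [hvF, Vmon.aevalA']
    intro h1
    exact hvH (hinj (by rw [h1, map_zero]))
  obtain ⟨⟨j0, hj0⟩, hfin, hJ⟩ := hH vF hvFH
  -- scaling
  have hsc : ∀ (a : AlgebraicClosure ℂ) (x : Pt ℂ σ) (j : J),
      aeval (fun i => if w i = 1 then a * x i else vF i) (g j) =
        a ^ d * aeval (fun i => if w i = 1 then x i else vF i) (g j) := by
    intro a x j
    rw [← whom_smul w (g j) (hg j) a (fun i => if w i = 1 then x i else vF i)]
    congr 2
    funext i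
    by_cases hi : w i = 1
    · rw [if_pos hi, if_pos hi, hi, pow_one]
    · rw [if_neg hi, if_neg hi, hw01 i hi, pow_zero, one_mul]
  -- the points of the fibre are not in `L0`
  have hne : ∀ u ∈ {u : Pt ℂ σ | (∀ i, w i = 0 → u i = vF i) ∧
      ∀ j, aeval u (g j) = aeval vF (g j)}, u ∉ L0 w := by
    rintro u ⟨hu0, hu⟩ huL
    apply hj0
    rw [← hu j0]
    have h1 := hsc 0 u j0
    rw [zero_pow hd.ne', zero_mul] at h1
    rw [← h1]
    congr 2
    funext i
    by_cases hi : w i = 1
    · rw [if_pos hi, zero_mul]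
      exact huL i hi
    · rw [if_neg hi]
      exact hu0 i (hw01 i hi)
  obtain ⟨T, hT1, hT2, hT3⟩ := reps (L0 w) _ hfin
  have hTne : ∀ u ∈ T, u ∉ L0 w := fun u hu => hne u (hT1 u hu)
  have hTn : T.Nonempty := by
    obtain ⟨u', hu', -⟩ := hT3 vF ⟨fun i _ => rfl, fun j => rfl⟩
    exact ⟨u', hu'⟩
  -- the jets
  have hJT : ∀ N : ℕ, JetE g pF (fun j => aeval vF (g j)) N = ZU (L0 w) pF T d N := by
    intro N
    rw [hJ N]
    ext z
    constructor
    · rintro ⟨h1, a, h2, ⟨c, hc, h3⟩, h4⟩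
      obtain ⟨l, hl⟩ := IsAlgClosed.exists_pow_nat_eq c hd
      have hl0 : l ≠ 0 := by
        rintro rfl
        rw [zero_pow hd.ne'] at hl
        exact hc hl.symm
      have h5 : (fun i => if w i = 1 then l⁻¹ * jk z a i else vF i : Pt ℂ σ) ∈
          {u : Pt ℂ σ | (∀ i, w i = 0 → u i = vF i) ∧ ∀ j, aeval u (g j) = aeval vF (g j)} := by
        refine ⟨fun i hi => ?_, fun j => ?_⟩
        · change (if w i = 1 then l⁻¹ * jk z a i else vF i) = vF i
          rw [if_neg (by omega)]
        · rw [hsc l⁻¹ (jk z a) j, h3 j, inv_pow, hl, inv_mul_cancel_left₀ hc]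
      obtain ⟨u', hu', b, hb, h6⟩ := hT3 _ h5
      refine ⟨u', hu', h1, a, fun k hk => h2 k hk, ⟨l * b, mul_ne_zero hl0 hb, ?_⟩, h4⟩
      intro i hi
      have h7 := h6 i hi
      change (if w i = 1 then l⁻¹ * jk z a i else vF i) - b * u' i = 0 at h7
      rw [if_pos hi, sub_eq_zero] at h7
      change jk z a i - l * b * u' i = 0
      rw [mul_assoc, ← h7, mul_inv_cancel_left₀ hl0, sub_self]
    · rintro ⟨u', hu', h1, a, h2, ⟨b, hb, h3⟩, h4⟩
      refine ⟨h1, a, fun k hk => h2 k hk, ⟨b ^ d, pow_ne_zero _ hb, ?_⟩, h4⟩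
      intro j
      obtain ⟨hu0, hu1⟩ := hT1 u' hu'
      have h8 : (fun i => if w i = 1 then jk z a i else vF i : Pt ℂ σ) =
          fun i => if w i = 1 then b * u' i else vF i := by
        funext i
        by_cases hi : w i = 1
        · rw [if_pos hi, if_pos hi]
          have h9 := h3 i hi
          change jk z a i - b * u' i = 0 at h9
          rw [sub_eq_zero] at h9
          exact h9
        · rw [if_neg hi, if_neg hi]
      rw [h8, hsc b u' j, ← hu1 j]
      congr 3
      funext i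
      by_cases hi : w i = 1
      · rw [if_pos hi]
      · rw [if_neg hi]
        exact (hu0 i (hw01 i hi)).symm
  have hy : (fun j => aeval vF (g j)) = fun j => algebraMap ℂ (AlgebraicClosure ℂ) (eval v (g j)) := by
    funext j
    rw [hvF, Vmon.aevalA']
  have h0F : (fun i => algebraMap ℂ (AlgebraicClosure ℂ) (if w i = 1 then 0 else v i)) = pF := by
    funext i
    change _ = if w i = 1 then (0 : AlgebraicClosure ℂ) else vF i
    by_cases hi : w i = 1
    · rw [if_pos hi, if_pos hi, map_zero]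
    · rw [if_neg hi, if_neg hi]
  refine ⟨fun i => if w i = 1 then 0 else v i, ?_, fun j => eval v (g j), T.card, hTn.card_pos, ?_,
    ⟨d, hd, ?_⟩, ?_, ?_⟩
  · rw [pi_norm_lt_iff hε]
    intro i
    by_cases hi : w i = 1
    · rw [if_pos hi, norm_zero]
      exact hε
    · rw [if_neg hi]
      exact hvε i
  · intro h1
    apply hj0
    rw [hvF, Vmon.aevalA', show eval v (g j0) = 0 from congrFun h1 j0, map_zero]
  · rw [h0F, ← hy, hJT]
    obtain ⟨u, hu⟩ := hTn
    have hz : jk (fun q : σ × _root_.Fin (d + 1) => if (q.2 : ℕ) = 1 then u q.1 else pF q.1) 0 =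
        pF := by
      rw [Lev.jk_zero]
      funext i
      simp
    refine ⟨fun q => if (q.2 : ℕ) = 1 then u q.1 else pF q.1, u, hu, hz, 1, fun k hk => ?_, ?_,
      Nat.mul_one _⟩
    · have hk0 : k = 0 := Nat.lt_one_iff.1 hk
      subst hk0
      rw [hz]
      exact hpL
    · refine ⟨1, one_ne_zero, ?_⟩
      rw [one_smul]
      have h6 : jk (fun q : σ × _root_.Fin (d + 1) => if (q.2 : ℕ) = 1 then u q.1 else pF q.1) 1 =
          u := by
        funext i
        rw [Lev.jk_lt _ (by omega)]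
        simp
      rw [h6, sub_self]
      exact Submodule.zero_mem _
  · rw [Finsupp.single_eq_of_ne hd.ne]
  · intro N hN0
    obtain ⟨-, Q, k, hQ1, hQ⟩ := ZU_main (L0 w) pF hpL d hd N hN0 M _ hLw T hTne hT2
    rw [h0F, ← hy, hJT]
    refine ⟨Q, k, ?_, ?_⟩
    · have hk : (T.card : ℤ) ≠ 0 := by exact_mod_cast hTn.card_pos.ne'
      rw [hQ1, Finsupp.support_single_ne_zero _ hk, Finset.filter_singleton]
      split_ifs
      · rw [Finset.sum_singleton, Finsupp.single_eq_same]
      · rw [Finset.sum_empty]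
    · rw [← hM, ← hL]
      exact hQ

end Pool.Agent.D0H65.CX.Vmon2
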