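import Pool.Agent.D0H67.CX.Stm4
import Pool.Agent.D0H65.CX.Vmon2

/-! # The monodromy zeta functions of families of quasi-homogeneous cones -/

set_option autoImplicit false
set_option linter.unusedSectionVars false
set_option linter.unusedVariables false

namespace Pool.Agent.D0H65.CX.Vmon3

open MvPolynomial Pool.Agent.W428.MOT Pool.Agent.TH192.MT Pool.Agent.TH192.DT
  Pool.Agent.D0H67.SUB Pool.Agent.D0H67.PM Pool.Agent.D0H67.SUB.Trn Pool.Agent.D0H67.SUB.Lev
  Pool.Agent.D0H67.CX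

/-- representatives of an equivalence relation on a finite set -/
theorem reps {V : Type} (r : V → V → Prop) (hr : ∀ u, r u u) (hs : ∀ u v, r u v → r v u)
    (Φ : Set V) (hΦ : Φ.Finite) : ∃ T : Finset V, (∀ u ∈ T, u ∈ Φ) ∧
      (∀ u ∈ T, ∀ u' ∈ T, u ≠ u' → ¬ r u u') ∧ ∀ u ∈ Φ, ∃ u' ∈ T, r u' u := by
  classical
  induction Φ, hΦ using Set.Finite.induction_on with
  | empty =>
    exact ⟨∅, by simp, by simp, by simp⟩
  | @insert u S huS hS ih =>
    obtain ⟨T, hT1, hT2, hT3⟩ := ih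
    by_cases h : ∃ u' ∈ T, r u' u
    · refine ⟨T, fun v hv => Set.mem_insert_of_mem _ (hT1 v hv), hT2, fun v hv => ?_⟩
      rcases Set.mem_insert_iff.1 hv with rfl | hv
      · exact h
      · exact hT3 v hv
    · refine ⟨insert u T, fun v hv => ?_, fun v hv v' hv' hne => ?_, fun v hv => ?_⟩
      · rcases Finset.mem_insert.1 hv with rfl | hv
        · exact Set.mem_insert _ _
        · exact Set.mem_insert_of_mem _ (hT1 v hv)
      · rcases Finset.mem_insert.1 hv with e1 | e1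
        · rcases Finset.mem_insert.1 hv' with e2 | e2
          · exact absurd (e1.trans e2.symm) hne
          · rw [e1]
            exact fun h1 => h ⟨v', e2, hs _ _ h1⟩
        · rcases Finset.mem_insert.1 hv' with e2 | e2
          · rw [e2]
            exact fun h1 => h ⟨v, e1, h1⟩
          · exact hT2 v e1 v' e2 hne
      · rcases Set.mem_insert_iff.1 hv with rfl | hv
        · exact ⟨v, Finset.mem_insert_self _ _, hr v⟩
        · obtain ⟨u', hu', ha⟩ := hT3 v hv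
          exact ⟨u', Finset.mem_insert_of_mem hu', ha⟩

section pieces

variable {σ : Type} [Fintype σ] (w : σ → ℕ)

/-- the points of one orbit -/
def Rel (u x : Pt ℂ σ) : Prop :=
  ∃ ρ : AlgebraicClosure ℂ, ρ ≠ 0 ∧ ∀ i, w i ≠ 0 → x i = ρ ^ w i * u i

theorem Rel.refl (u : Pt ℂ σ) : Rel w u u :=
  ⟨1, one_ne_zero, fun i _ => by rw [one_pow, one_mul]⟩

theorem Rel.symm {u x : Pt ℂ σ} (h : Rel w u x) : Rel w x u := by
  obtain ⟨ρ, h0, h1⟩ := h
  refine ⟨ρ⁻¹, inv_ne_zero h0, fun i hi => ?_⟩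
  rw [h1 i hi, inv_pow, inv_mul_cancel_left₀ (pow_ne_zero _ h0)]

theorem Rel.trans {u x y : Pt ℂ σ} (h : Rel w u x) (h' : Rel w x y) : Rel w u y := by
  obtain ⟨ρ, h0, h1⟩ := h
  obtain ⟨ρ', h0', h1'⟩ := h'
  refine ⟨ρ' * ρ, mul_ne_zero h0' h0, fun i hi => ?_⟩
  rw [h1' i hi, h1 i hi, mul_pow, mul_assoc]

/-- the jets with leading coefficient in the orbit of `u` -/
def ZZ (p u : Pt ℂ σ) (d N : ℕ) : Set (Pt ℂ (σ × Fin (N + 1))) :=
  {z | jk z 0 = p ∧ ∃ a : ℕ, (∀ i, w i ≠ 0 → ∀ k < a * w i, jk z k i = 0) ∧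
    (∃ ρ : AlgebraicClosure ℂ, ρ ≠ 0 ∧ ∀ i, w i ≠ 0 → jk z (a * w i) i = ρ ^ w i * u i) ∧ d * a = N}

theorem chi_empty {K : Type} [Field K] {τ : Type} [Fintype τ] {R : Type} [CommRing R]
    (M : Meas K R) : M.χ τ (∅ : Set (Pt K τ)) = 0 := by
  have h1 := M.add (∅ : Set (Pt K τ)) ∅ Constr.empty Constr.empty (by simp)
  rw [Set.union_empty] at h1
  have h3 : M.χ τ (∅ : Set (Pt K τ)) + 0 = M.χ τ (∅ : Set (Pt K τ)) + M.χ τ ∅ := by
    rw [add_zero]; exact h1
  exact (add_left_cancel h3).symm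

theorem ZZ_main (hORB : S_ORB) (hgcd : ∀ k : ℕ, (∀ i, k ∣ w i) → k = 1) (p u : Pt ℂ σ)
    (hu : ∀ i, w i ≠ 0 → u i ≠ 0) (hp : p = fun i => if w i = 0 then u i else 0) (d : ℕ)
    (hd : 0 < d) (hwd : ∀ i, w i ≤ d) (N : ℕ) (hN : 0 < N) {R : Type} [CommRing R] (M : Meas ℂ R) :
    Constr (ZZ w p u d N) ∧ ∃ Q : Polynomial ℤ, Q.eval 1 = (if d ∣ N then (1 : ℤ) else 0) ∧
      M.χ _ (ZZ w p u d N) = (M.L - 1) * Q.eval₂ (Int.castRingHom R) M.L := by
  by_cases h : d ∣ N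
  · obtain ⟨a, rfl⟩ := h
    have ha : 0 < a := Nat.pos_of_ne_zero fun h0 => by
      rw [h0, mul_zero] at hN
      exact lt_irrefl _ hN
    obtain ⟨h1, h2⟩ := hORB w hgcd u hu (d * a) a ha (fun i => by
      rw [mul_comm]
      exact Nat.mul_le_mul_right a (hwd i))
    have heq : ZZ w p u d (d * a) =
        {z : Pt ℂ (σ × Fin (d * a + 1)) | (jk z 0 = fun i => if w i = 0 then u i else 0) ∧
        (∀ i, w i ≠ 0 → ∀ k < a * w i, jk z k i = 0) ∧
        ∃ ρ : AlgebraicClosure ℂ, ρ ≠ 0 ∧ ∀ i, w i ≠ 0 → jk z (a * w i) i = ρ ^ w i * u i} := by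
      ext z
      constructor
      · rintro ⟨g1, a', g2, g3, g4⟩
        have haa := Nat.eq_of_mul_eq_mul_left hd g4
        subst haa
        exact ⟨g1.trans hp, g2, g3⟩
      · rintro ⟨g1, g2, g3⟩
        exact ⟨g1.trans hp.symm, a, g2, g3, rfl⟩
    rw [heq]
    refine ⟨h1, Polynomial.X ^ (∑ i, (d * a - a * w i)), ?_, ?_⟩
    · rw [Polynomial.eval_pow, Polynomial.eval_X, one_pow, if_pos (Dvd.intro a rfl)]
    · rw [Polynomial.eval₂_X_pow]
      exact h2 M
  · have heq : ZZ w p u d N = ∅ := by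
      rw [Set.eq_empty_iff_forall_notMem]
      rintro z ⟨-, a, -, -, h4⟩
      exact h (h4 ▸ Dvd.intro a rfl)
    rw [heq]
    refine ⟨Constr.empty, 0, ?_, ?_⟩
    · rw [Polynomial.eval_zero, if_neg h]
    · rw [chi_empty M, Polynomial.eval₂_zero, mul_zero]

/-- the union over a finite set of orbits -/
def ZU (p : Pt ℂ σ) (T : Finset (Pt ℂ σ)) (d N : ℕ) : Set (Pt ℂ (σ × Fin (N + 1))) :=
  {z | ∃ u ∈ T, z ∈ ZZ w p u d N}

theorem ZU_main (hORB : S_ORB) (hgcd : ∀ k : ℕ, (∀ i, k ∣ w i) → k = 1) (p : Pt ℂ σ) (d : ℕ)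
    (hd : 0 < d) (hwd : ∀ i, w i ≤ d) (N : ℕ) (hN : 0 < N) {R : Type} [CommRing R] (M : Meas ℂ R)
    (T : Finset (Pt ℂ σ)) :
    (∀ u ∈ T, (∀ i, w i ≠ 0 → u i ≠ 0) ∧ p = fun i => if w i = 0 then u i else 0) →
    (∀ u ∈ T, ∀ u' ∈ T, u ≠ u' → ¬ Rel w u u') →
    Constr (ZU w p T d N) ∧ ∃ Q : Polynomial ℤ,
      Q.eval 1 = (if d ∣ N then (T.card : ℤ) else 0) ∧
      M.χ _ (ZU w p T d N) = (M.L - 1) * Q.eval₂ (Int.castRingHom R) M.L := by
  classical
  induction T using Finset.induction_on with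
  | empty =>
    intro _ _
    have h : ZU w p (∅ : Finset (Pt ℂ σ)) d N = ∅ := by
      ext z
      simp [ZU]
    rw [h]
    refine ⟨Constr.empty, 0, by simp, ?_⟩
    rw [chi_empty M, Polynomial.eval₂_zero, mul_zero]
  | insert u T huT ih =>
    intro h0 hdis
    obtain ⟨hc, Q, hQ1, hQ⟩ := ih (fun u' hu' => h0 u' (Finset.mem_insert_of_mem hu'))
      (fun u' hu' u'' hu'' hne => hdis u' (Finset.mem_insert_of_mem hu') u''
        (Finset.mem_insert_of_mem hu'') hne)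
    obtain ⟨hv, hpu⟩ := h0 u (Finset.mem_insert_self _ _)
    obtain ⟨hcu, Q', hQ1', hQ'⟩ := ZZ_main w hORB hgcd p u hv hpu d hd hwd N hN M
    have hun : ZU w p (insert u T) d N = ZZ w p u d N ∪ ZU w p T d N := by
      ext z
      constructor
      · rintro ⟨u', hu', hz⟩
        rcases Finset.mem_insert.1 hu' with rfl | h
        · exact Or.inl hz
        · exact Or.inr ⟨u', h, hz⟩
      · rintro (hz | ⟨u', h, hz⟩)
        · exact ⟨u, Finset.mem_insert_self _ _, hz⟩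
        · exact ⟨u', Finset.mem_insert_of_mem h, hz⟩
    have hdj : Disjoint (ZZ w p u d N) (ZU w p T d N) := by
      rw [Set.disjoint_left]
      rintro z ⟨-, a, -, h3, h4⟩ ⟨u', hu', -, a', -, h5, h6⟩
      have haa : a = a' := Nat.eq_of_mul_eq_mul_left hd (h4.trans h6.symm)
      subst haa
      have hne : u ≠ u' := fun h => huT (h ▸ hu')
      have h7 : Rel w u (fun i => jk z (a * w i) i) := h3
      have h8 : Rel w u' (fun i => jk z (a * w i) i) := h5
      exact hdis u (Finset.mem_insert_self _ _) u' (Finset.mem_insert_of_mem hu') hne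
        (Rel.trans w h7 (Rel.symm w h8))
    rw [hun]
    refine ⟨hcu.union hc, Q' + Q, ?_, ?_⟩
    · rw [Polynomial.eval_add, hQ1, hQ1', Finset.card_insert_of_notMem huT]
      split_ifs
      · push_cast
        ring
      · ring
    · rw [M.add _ _ hcu hc hdj, Polynomial.eval₂_add, hQ, hQ']
      ring

end pieces

/-- Module VMON3. -/
theorem t_VMON3 : S_ORB → S_GENV3 → S_VMON3 := by
  intro hORB hGENV σ J _ g ι w d hgcd hd hg halg ε hε
  classical
  obtain ⟨hwd, H, hH0, hH⟩ := hGENV g ι w d hgcd hd hg halg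
  obtain ⟨M, hL, hM⟩ := exists_meas ℂ
  obtain ⟨v, hvε, hvH⟩ := Vmon2.small_ne H hH0 ε hε
  set vF : Pt ℂ σ := fun i => algebraMap ℂ (AlgebraicClosure ℂ) (v i) with hvF
  set pF : Pt ℂ σ := fun i => if w i = 0 then vF i else 0 with hpF
  have hinj : Function.Injective (algebraMap ℂ (AlgebraicClosure ℂ)) :=
    (algebraMap ℂ (AlgebraicClosure ℂ)).injective
  have hvFH : aeval vF H ≠ 0 := by
    rw [hvF, Vmon.aevalA']
    intro h1
    exact hvH (hinj (by rw [h1, map_zero]))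
  obtain ⟨⟨j0, hj0⟩, hfin, hnz, hJ⟩ := hH vF hvFH
  obtain ⟨T, hT1, hT2, hT3⟩ := reps (Rel w) (Rel.refl w) (fun _ _ h => Rel.symm w h) _ hfin
  have hTn : T.Nonempty := by
    obtain ⟨u', hu', -⟩ := hT3 vF ⟨fun i _ => rfl, fun j => rfl⟩
    exact ⟨u', hu'⟩
  have hTu : ∀ u ∈ T, (∀ i, w i ≠ 0 → u i ≠ 0) ∧ pF = fun i => if w i = 0 then u i else 0 := by
    intro u hu
    obtain ⟨h1, h2⟩ := hT1 u hu
    refine ⟨hnz u h1 1 one_ne_zero (fun j => by rw [one_mul]; exact h2 j), ?_⟩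
    funext i
    by_cases hi : w i = 0
    · rw [if_pos hi, h1 i hi]
      exact if_pos hi
    · rw [if_neg hi]
      exact if_neg hi
  -- the jets
  have hJT : ∀ N : ℕ, JetE g pF (fun j => aeval vF (g j)) N = ZU w pF T d N := by
    intro N
    rw [hJ N]
    ext z
    constructor
    · rintro ⟨h1, a, h2, ⟨c, hc, h3⟩, h4⟩
      obtain ⟨l, hl⟩ := IsAlgClosed.exists_pow_nat_eq c hd
      have hl0 : l ≠ 0 := by
        rintro rfl
        rw [zero_pow hd.ne'] at hl
        exact hc hl.symm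
      set x : Pt ℂ σ := fun i => if w i = 0 then vF i else jk z (a * w i) i with hx
      have h5 : (fun i => l⁻¹ ^ w i * x i : Pt ℂ σ) ∈
          {u : Pt ℂ σ | (∀ i, w i = 0 → u i = vF i) ∧ ∀ j, aeval u (g j) = aeval vF (g j)} := by
        refine ⟨fun i hi => ?_, fun j => ?_⟩
        · change l⁻¹ ^ w i * x i = vF i
          rw [hi, pow_zero, one_mul]
          exact if_pos hi
        · rw [Vmon2.whom_smul w (g j) (hg j) l⁻¹ x, h3 j, inv_pow, hl, inv_mul_cancel_left₀ hc]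
      obtain ⟨u', hu', b, hb, h6⟩ := hT3 _ h5
      refine ⟨u', hu', h1, a, h2, ⟨l * b, mul_ne_zero hl0 hb, fun i hi => ?_⟩, h4⟩
      have h7 := h6 i hi
      have h8 : x i = jk z (a * w i) i := if_neg hi
      change l⁻¹ ^ w i * x i = b ^ w i * u' i at h7
      rw [← h8, mul_pow, mul_assoc, ← h7, inv_pow, mul_inv_cancel_left₀ (pow_ne_zero _ hl0)]
    · rintro ⟨u', hu', h1, a, h2, ⟨b, hb, h3⟩, h4⟩
      refine ⟨h1, a, h2, ⟨b ^ d, pow_ne_zero _ hb, fun j => ?_⟩, h4⟩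
      obtain ⟨hu0, hu1⟩ := hT1 u' hu'
      have h8 : (fun i => if w i = 0 then vF i else jk z (a * w i) i : Pt ℂ σ) =
          fun i => b ^ w i * u' i := by
        funext i
        by_cases hi : w i = 0
        · rw [if_pos hi, hi, pow_zero, one_mul, hu0 i hi]
        · rw [if_neg hi, h3 i hi]
      rw [h8, Vmon2.whom_smul w (g j) (hg j) b u', hu1 j]
  have hy : (fun j => aeval vF (g j)) = fun j => algebraMap ℂ (AlgebraicClosure ℂ) (eval v (g j)) := by
    funext j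
    rw [hvF, Vmon.aevalA']
  have h0F : (fun i => algebraMap ℂ (AlgebraicClosure ℂ) (if w i = 0 then v i else 0)) = pF := by
    funext i
    change _ = if w i = 0 then vF i else (0 : AlgebraicClosure ℂ)
    by_cases hi : w i = 0
    · rw [if_pos hi, if_pos hi]
    · rw [if_neg hi, if_neg hi, map_zero]
  refine ⟨fun i => if w i = 0 then v i else 0, ?_, fun j => eval v (g j), T.card, hTn.card_pos, ?_,
    ⟨d, hd, ?_⟩, ?_, ?_⟩
  · rw [pi_norm_lt_iff hε]
    intro i
    by_cases hi : w i = 0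
    · rw [if_pos hi]
      exact hvε i
    · rw [if_neg hi, norm_zero]
      exact hε
  · intro h1
    apply hj0
    rw [hvF, Vmon.aevalA', show eval v (g j0) = 0 from congrFun h1 j0, map_zero]
  · rw [h0F, ← hy, hJT]
    obtain ⟨u, hu⟩ := hTn
    obtain ⟨hu1, hu2⟩ := hTu u hu
    refine ⟨fun q => if (q.2 : ℕ) = w q.1 then u q.1 else 0, u, hu, ?_, 1, fun i hi k hk => ?_,
      ⟨1, one_ne_zero, fun i hi => ?_⟩, Nat.mul_one _⟩
    · rw [Lev.jk_zero, hu2]
      funext i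
      by_cases hi : w i = 0
      · simp [hi]
      · simp [hi, Ne.symm hi]
    · rw [one_mul] at hk
      have h9 := hwd i
      rw [Lev.jk_lt _ (by omega)]
      change (if k = w i then u i else 0) = 0
      rw [if_neg hk.ne]
    · have h9 := hwd i
      rw [one_mul, one_pow, one_mul, Lev.jk_lt _ (by omega)]
      change (if w i = w i then u i else 0) = u i
      rw [if_pos rfl]
  · rw [Finsupp.single_eq_of_ne hd.ne]
  · intro N hN0
    obtain ⟨-, Q, hQ1, hQ⟩ := ZU_main w hORB hgcd pF d hd hwd N hN0 M T hTu hT2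
    rw [h0F, ← hy, hJT]
    refine ⟨Q, 0, ?_, ?_⟩
    · have hk : (T.card : ℤ) ≠ 0 := by exact_mod_cast hTn.card_pos.ne'
      rw [hQ1, Finsupp.support_single_ne_zero _ hk, Finset.filter_singleton]
      split_ifs
      · rw [Finset.sum_singleton, Finsupp.single_eq_same]
      · rw [Finset.sum_empty]
    · rw [← hM, ← hL, pow_zero, mul_one]
      exact hQ

end Pool.Agent.D0H65.CX.Vmon3
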